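import Pool.Agent.H36.AO.PFin

set_option autoImplicit false

namespace AO.BP

/-- a condition of level `n` -/
structure DXV {ι : Type} (T : ι → ι → Prop) (p : Cn ι) (n : ℕ) : Prop where
  pc : PC T p n
  inj : ∀ d i j m m', p.B d i m → p.B d j m' → p.a i = p.a j → i = j

section
variable {ι : Type} {T : ι → ι → Prop}

theorem dxv_vc {p : Cn ι} {n : ℕ} (h : DXV T p n) : VC T p := ⟨⟨n, h.pc⟩, h.inj⟩

theorem dxn_up (hups : UPSStmt) {p : Cn ι} {n : ℕ} (h : DXV T p n) (x : ι → ℕ) (J : ι → Prop) :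
    ∃ q, DXV T q (n + 1) ∧ Le q p ∧ (∀ i, p.a i ≠ [] → q.a i = p.a i ++ [x i]) ∧
    (∀ i, p.a i = [] → q.a i = []) ∧ (∀ d, q.t d = [] ↔ p.t d = []) ∧
    (∀ d, p.t d ≠ [] → ([] ∈ lv (q.t d) (n + 1) ↔ J d)) ∧
    ∀ d i m, q.B d i m ↔ p.B d i m := by
  obtain ⟨q, h1, h2, h3, h4, h5, h6, h7⟩ := hups ι T p n x (fun _ _ => False) J h.pc
    (fun d i h => h.elim) (by
      rintro d i j (⟨m, hm⟩ | h0) (⟨m', hm'⟩ | h0') he
      · left
        rw [h.inj d i j m m' hm hm' he]
      · exact h0'.elim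
      · exact h0.elim
      · exact h0.elim)
  have h7' : ∀ d i m, q.B d i m ↔ p.B d i m := by
    intro d i m
    rw [h7]
    simp
  refine ⟨q, ⟨h1, ?_⟩, h2, h3, h4, h5, h6, h7'⟩
  intro d i j m m' hm hm' he
  rw [h7'] at hm hm'
  have hi := (h.pc.b d i m hm).2.2.1
  have hj := (h.pc.b d j m' hm').2.2.1
  rw [h3 i hi, h3 j hj] at he
  exact h.inj d i j m m' hm hm' (List.append_inj' he rfl).1

theorem dxn_hi (hlep : LEPStmt) (hups : UPSStmt) {p : Cn ι} {n : ℕ} (h : DXV T p n) :
    ∀ j : ℕ, ∃ q, DXV T q (n + j) ∧ Le q p ∧ (∀ i, p.a i = [] → q.a i = []) ∧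
      ∀ i, p.t i = [] → q.t i = []
  | 0 => ⟨p, h, hlep.refl ι p, fun _ h => h, fun _ h => h⟩
  | j + 1 => by
    obtain ⟨q, h1, h2, h3, h4⟩ := dxn_hi hlep hups h j
    obtain ⟨r, k1, k2, -, k3, k4, -, -⟩ := dxn_up hups h1 (fun _ => 0) (fun _ => False)
    exact ⟨r, k1, hlep.trans ι _ _ _ k2 h2, fun i hi => k3 i (h3 i hi),
      fun i hi => (k4 i).2 (h4 i hi)⟩

theorem le_ne_a {q p : Cn ι} (h : Le q p) {i : ι} (hi : p.a i ≠ []) : q.a i ≠ [] := by
  intro h0
  have := h.a i
  rw [h0] at this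
  exact hi (List.prefix_nil.1 this)

theorem le_ne_t {q p : Cn ι} (h : Le q p) {i : ι} (hi : p.t i ≠ []) : q.t i ≠ [] := by
  intro h0
  have := h.t i
  rw [h0] at this
  exact hi (List.prefix_nil.1 this)

theorem dxn_ea (hlep : LEPStmt) (hups : UPSStmt) {p : Cn ι} (i : ι) (k : ℕ) (h : VC T p) :
    ∃ q n, DXV T q n ∧ Le q p ∧ k ≤ (q.a i).length := by
  classical
  obtain ⟨n, hn⟩ := h.pc
  have hv : DXV T p n := ⟨hn, h.inj⟩
  obtain ⟨q, h1, h2, h3, h4⟩ := dxn_hi hlep hups hv (k + 1)
  by_cases hi : p.a i = []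
  · have hqi : q.a i = [] := h3 i hi
    have hne : ∀ j, q.a j ≠ [] → j ≠ i := by
      rintro j hj rfl
      exact hj hqi
    refine ⟨⟨Function.update q.a i (List.replicate (n + (k + 1)) 0), q.t, q.B⟩, n + (k + 1),
      ⟨⟨?_, h1.pc.ft, ?_, h1.pc.lt, h1.pc.adm, ?_⟩, ?_⟩, ⟨?_, h2.t, h2.B⟩, ?_⟩
    · refine (h1.pc.fa.insert i).subset fun j hj => ?_
      by_cases hji : j = i
      · exact Or.inl hji
      · right
        have : Function.update q.a i (List.replicate (n + (k + 1)) 0) j = q.a j :=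
          Function.update_of_ne hji _ _
        intro h0
        exact hj (this.trans h0)
    · intro j hj
      change Function.update q.a i (List.replicate (n + (k + 1)) 0) j ≠ [] at hj
      change (Function.update q.a i (List.replicate (n + (k + 1)) 0) j).length = _
      by_cases hji : j = i
      · rw [hji, Function.update_self, List.length_replicate]
      · rw [Function.update_of_ne hji] at hj ⊢
        exact h1.pc.la j hj
    · intro d j m hB
      obtain ⟨b1, b2, b3, b4, b5⟩ := h1.pc.b d j m hB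
      change _ ∧ _ ∧ Function.update q.a i (List.replicate (n + (k + 1)) 0) j ≠ [] ∧ _ ∧
        ad m _ (Function.update q.a i (List.replicate (n + (k + 1)) 0) j)
      rw [Function.update_of_ne (hne j b3)]
      exact ⟨b1, b2, b3, b4, b5⟩
    · intro d j j' m m' hB hB' he
      change Function.update q.a i (List.replicate (n + (k + 1)) 0) j =
        Function.update q.a i (List.replicate (n + (k + 1)) 0) j' at he
      rw [Function.update_of_ne (hne j (h1.pc.b d j m hB).2.2.1),
        Function.update_of_ne (hne j' (h1.pc.b d j' m' hB').2.2.1)] at he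
      exact h1.inj d j j' m m' hB hB' he
    · intro j
      change p.a j <+: Function.update q.a i (List.replicate (n + (k + 1)) 0) j
      by_cases hji : j = i
      · rw [hji, hi]
        exact List.nil_prefix
      · rw [Function.update_of_ne hji]
        exact h2.a j
    · change k ≤ (Function.update q.a i (List.replicate (n + (k + 1)) 0) i).length
      rw [Function.update_self, List.length_replicate]
      omega
  · refine ⟨q, _, h1, h2, ?_⟩
    rw [h1.pc.la i (le_ne_a h2 hi)]
    omega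

theorem dxn_et (hlep : LEPStmt) (hups : UPSStmt) {p : Cn ι} (i : ι) (k : ℕ) (h : VC T p) :
    ∃ q n, DXV T q n ∧ Le q p ∧ k ≤ (q.t i).length := by
  classical
  obtain ⟨n, hn⟩ := h.pc
  have hv : DXV T p n := ⟨hn, h.inj⟩
  obtain ⟨q, h1, h2, h3, h4⟩ := dxn_hi hlep hups hv (k + 1)
  by_cases hi : p.t i = []
  · have hqi : q.t i = [] := h4 i hi
    have hne : ∀ j, q.t j ≠ [] → j ≠ i := by
      rintro j hj rfl
      exact hj hqi
    let c : ℕ := Encodable.encode (∅ : Finset (List ℕ))
    let L : List ℕ := List.replicate (n + (k + 1) + 1) c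
    have hlv : ∀ m, m < L.length → lv L m = ∅ := by
      intro m hm
      unfold lv
      rw [List.getD_eq_getElem?_getD, List.getElem?_eq_getElem hm]
      simp only [L, List.getElem_replicate, Option.getD_some]
      unfold fs
      rw [Encodable.encodek]
      rfl
    refine ⟨⟨q.a, Function.update q.t i L, q.B⟩, n + (k + 1),
      ⟨⟨h1.pc.fa, ?_, h1.pc.la, ?_, ?_, ?_⟩, h1.inj⟩, ⟨h2.a, ?_, h2.B⟩, ?_⟩
    · refine (h1.pc.ft.insert i).subset fun j hj => ?_
      by_cases hji : j = i
      · exact Or.inl hji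
      · right
        have : Function.update q.t i L j = q.t j := Function.update_of_ne hji _ _
        intro h0
        exact hj (this.trans h0)
    · intro j hj
      change Function.update q.t i L j ≠ [] at hj
      change (Function.update q.t i L j).length = _
      by_cases hji : j = i
      · rw [hji, Function.update_self, List.length_replicate]
      · rw [Function.update_of_ne hji] at hj ⊢
        exact h1.pc.lt j hj
    · intro j
      change adm (Function.update q.t i L j)
      by_cases hji : j = i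
      · rw [hji, Function.update_self]
        constructor
        · intro m s y y' hm hs
          rw [hlv m (by omega)] at hs
          simp at hs
        · intro m s hm hs
          rw [hlv m (by omega)] at hs
          simp at hs
      · rw [Function.update_of_ne hji]
        exact h1.pc.adm j
    · intro d j m hB
      obtain ⟨b1, b2, b3, b4, b5⟩ := h1.pc.b d j m hB
      change _ ∧ Function.update q.t i L d ≠ [] ∧ _ ∧ _ ∧ ad m (Function.update q.t i L d) _
      rw [Function.update_of_ne (hne d b2)]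
      exact ⟨b1, b2, b3, b4, b5⟩
    · intro j
      change p.t j <+: Function.update q.t i L j
      by_cases hji : j = i
      · rw [hji, hi]
        exact List.nil_prefix
      · rw [Function.update_of_ne hji]
        exact h2.t j
    · change k ≤ (Function.update q.t i L i).length
      rw [Function.update_self, List.length_replicate]
      omega
  · refine ⟨q, _, h1, h2, ?_⟩
    rw [h1.pc.lt i (le_ne_t h2 hi)]
    omega

end

theorem ao_dxn (hlep : LEPStmt) (hups : UPSStmt) : DXNStmt := by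
  classical
  refine ⟨?_, ?_, ?_, ?_, ?_, ?_⟩
  · intro ι T p k h
    obtain ⟨n, hn⟩ := h.pc
    have hv : DXV T p n := ⟨hn, h.inj⟩
    obtain ⟨q, h1, h2, h3, h4⟩ := dxn_hi hlep hups hv k
    refine ⟨q, dxv_vc h1, h2, h3, h4, fun i hi => ?_, fun i hi => ?_⟩
    · rw [h1.pc.la i (le_ne_a h2 hi)]
      omega
    · rw [h1.pc.lt i (le_ne_t h2 hi)]
      omega
  · intro ι T p i k h
    obtain ⟨q, n, h1, h2, h3⟩ := dxn_ea hlep hups i k h
    exact ⟨q, dxv_vc h1, h2, h3⟩
  · intro ι T p i k h
    obtain ⟨q, n, h1, h2, h3⟩ := dxn_et hlep hups i k h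
    exact ⟨q, dxv_vc h1, h2, h3⟩
  · intro ι T p d i h hT
    obtain ⟨p1, n1, h1, l1, e1⟩ := dxn_ea hlep hups i 1 h
    obtain ⟨p2, n2, h2, l2, e2⟩ := dxn_et hlep hups d 1 (dxv_vc h1)
    have ha2 : p2.a i ≠ [] := le_ne_a l2 (by
      intro h0
      rw [h0] at e1
      simp at e1)
    have ht2 : p2.t d ≠ [] := by
      intro h0
      rw [h0] at e2
      simp at e2
    obtain ⟨p3, h3, l3, a3, z3, t3, -, b3⟩ :=
      dxn_up hups h2 (fun j => if j = i then 1 else 0) (fun _ => False)
    have ha3 : p3.a i ≠ [] := le_ne_a l3 ha2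
    have ht3 : p3.t d ≠ [] := le_ne_t l3 ht2
    have huq : ∀ j, p3.a j = p3.a i → j = i := by
      intro j hj
      by_contra hji
      by_cases h0 : p2.a j = []
      · rw [z3 j h0] at hj
        exact ha3 hj.symm
      · rw [a3 j h0, a3 i ha2, if_neg hji, if_pos rfl] at hj
        have := (List.append_inj' hj rfl).2
        simp at this
    obtain ⟨q, k1, k2, k3, k4, k5, k6, k7⟩ := hups ι T p3 (n2 + 1) (fun _ => 0)
      (fun d' i' => d' = d ∧ i' = i) (fun _ => False) h3.pc (by
        rintro d' i' ⟨rfl, rfl⟩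
        exact ⟨hT, ht3, ha3⟩) (fun _ _ _ _ _ _ => Or.inl rfl)
    refine ⟨q, ⟨⟨_, k1⟩, ?_⟩, hlep.trans ι _ _ _ k2 (hlep.trans ι _ _ _ l3
      (hlep.trans ι _ _ _ l2 l1)), n2 + 1 + 1, (k7 _ _ _).2 (Or.inr ⟨⟨rfl, rfl⟩, rfl⟩)⟩
    intro e j j' m m' hB hB' he
    rw [k7] at hB hB'
    have hj : p3.a j ≠ [] := by
      rcases hB with hB | ⟨⟨-, rfl⟩, -⟩
      · exact (h3.pc.b e j m hB).2.2.1
      · exact ha3
    have hj' : p3.a j' ≠ [] := by
      rcases hB' with hB' | ⟨⟨-, rfl⟩, -⟩
      · exact (h3.pc.b e j' m' hB').2.2.1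
      · exact ha3
    rw [k3 j hj, k3 j' hj'] at he
    have he' : p3.a j = p3.a j' := (List.append_inj' he rfl).1
    rcases hB with hB | ⟨⟨-, rfl⟩, -⟩
    · rcases hB' with hB' | ⟨⟨-, rfl⟩, -⟩
      · exact h3.inj e j j' m m' hB hB' he'
      · exact huq j he'
    · exact (huq j' he'.symm).symm
  · intro ι T p i j h hij
    obtain ⟨p1, n1, h1, l1, e1⟩ := dxn_ea hlep hups i 1 h
    obtain ⟨p2, n2, h2, l2, e2⟩ := dxn_ea hlep hups j 1 (dxv_vc h1)
    have hi : p2.a i ≠ [] := le_ne_a l2 (by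
      intro h0
      rw [h0] at e1
      simp at e1)
    have hj : p2.a j ≠ [] := by
      intro h0
      rw [h0] at e2
      simp at e2
    obtain ⟨p3, h3, l3, a3, z3, t3, -, b3⟩ :=
      dxn_up hups h2 (fun j => if j = i then 1 else 0) (fun _ => False)
    refine ⟨p3, dxv_vc h3, hlep.trans ι _ _ _ l3 (hlep.trans ι _ _ _ l2 l1), n2, 1, 0, ?_, ?_,
      one_ne_zero⟩
    · rw [a3 i hi, List.getElem?_append_right (by rw [h2.pc.la i hi]), h2.pc.la i hi,
        Nat.sub_self, if_pos rfl]
      rfl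
    · rw [a3 j hj, List.getElem?_append_right (by rw [h2.pc.la j hj]), h2.pc.la j hj,
        Nat.sub_self, if_neg (Ne.symm hij)]
      rfl
  · intro ι T p i j h hij
    obtain ⟨p1, n1, h1, l1, e1⟩ := dxn_et hlep hups i 1 h
    obtain ⟨p2, n2, h2, l2, e2⟩ := dxn_et hlep hups j 1 (dxv_vc h1)
    have hi : p2.t i ≠ [] := le_ne_t l2 (by
      intro h0
      rw [h0] at e1
      simp at e1)
    have hj : p2.t j ≠ [] := by
      intro h0
      rw [h0] at e2
      simp at e2
    obtain ⟨p3, h3, l3, a3, z3, t3, j3, b3⟩ :=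
      dxn_up hups h2 (fun _ => 0) (fun e => e = i)
    have hl : ∀ e, p2.t e ≠ [] → n2 + 1 < (p3.t e).length := by
      intro e he
      rw [h3.pc.lt e (le_ne_t l3 he)]
      omega
    have hlv : ∀ e (he : p2.t e ≠ []), lv (p3.t e) (n2 + 1) =
        fs ((p3.t e)[n2 + 1]'(hl e he)) := by
      intro e he
      unfold lv
      rw [List.getD_eq_getElem?_getD, List.getElem?_eq_getElem (hl e he)]
      rfl
    refine ⟨p3, dxv_vc h3, hlep.trans ι _ _ _ l3 (hlep.trans ι _ _ _ l2 l1), n2 + 1,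
      (p3.t i)[n2 + 1]'(hl i hi), (p3.t j)[n2 + 1]'(hl j hj), List.getElem?_eq_getElem (hl i hi),
      List.getElem?_eq_getElem (hl j hj), ?_⟩
    intro he
    have h4 := (j3 i hi).2 rfl
    rw [hlv i hi, he, ← hlv j hj] at h4
    exact hij.symm ((j3 j hj).1 h4)

end AO.BP
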