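import Pool.Agent.H36.AO.PFin

set_option autoImplicit false

namespace AO.BP

theorem ao_gcf : GCFStmt := by
  have hlen : ∀ (a : ℕ → ℕ) n, (ini a n).length = n := fun a n => by simp [ini]
  have hget : ∀ (a : ℕ → ℕ) n k, k < n → (ini a n)[k]? = some (a k) := by
    intro a n k hk
    simp [ini, List.getElem?_range hk]
  have htake : ∀ (a : ℕ → ℕ) m n, m ≤ n → (ini a n).take m = ini a m := by
    intro a m n hmn
    simp [ini, ← List.map_take, List.take_range, Nat.min_eq_left hmn]
  have hlv : ∀ (t : ℕ → ℕ) n k, k < n → lv (ini t n) k = fs (t k) := by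
    intro t n k hk
    unfold lv
    rw [List.getD_eq_getElem?_getD, hget t n k hk]
    rfl
  refine ⟨?_, ?_, hlen, hget, ?_, htake, ?_, hlv, ?_⟩
  · intro a b h
    funext k
    have h1 := congrFun h (Nat.pair k (a k))
    simp only [gc, Nat.unpair_pair, decide_true] at h1
    exact (of_decide_eq_true h1.symm).symm
  · intro s u h
    exact Encodable.encode_injective h
  · intro a b n
    constructor
    · intro h k hk
      have h1 := hget a n k hk
      rw [h, hget b n k hk] at h1
      exact (Option.some.inj h1).symm
    · intro h
      unfold ini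
      apply List.map_congr_left
      intro k hk
      exact h k (List.mem_range.1 hk)
  · intro a n
    simp [ini, List.range_succ]
  · intro t
    constructor
    · intro h n k s x x' hk hs hx h1 h2
      rw [hlen] at hk
      rw [hlv t n k (by omega)] at hs
      rw [hlv t n (k + 1) hk] at h1 h2
      rw [htake t (k + 1) n (by omega)]
      exact h k s x x' hs hx h1 h2
    · intro h l s x x' hs hx h1 h2
      have h3 := h (l + 2) l s x x' (by rw [hlen]; omega) (by rwa [hlv t (l + 2) l (by omega)]) hx
        (by rwa [hlv t (l + 2) (l + 1) (by omega)]) (by rwa [hlv t (l + 2) (l + 1) (by omega)])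
      rwa [htake t (l + 1) (l + 2) (by omega)] at h3

end AO.BP
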