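import Pool.Agent.H98.AO.Grp

set_option autoImplicit false

namespace AO

section
variable (Z : Rl → Rl → Prop) (V : Set Vx) (r : Vx → Vx → Prop) (κ : Rl → Rl → ℕ)

/-- first case -/
private def CA (v : Vx) (s : Str) (q : Rl × Rl × ℕ) : Prop :=
  (false, q.1) ∈ V ∧ (true, q.2.1) ∈ V ∧ Z q.1 q.2.1 ∧ κ q.1 q.2.1 ≤ q.2.2 ∧
    r (true, q.2.1) (false, q.1) ∧ v = (false, q.1) ∧ s = str q.2.1 (q.2.2 + 1)

/-- second case -/
private def CB (v : Vx) (s : Str) (q : Rl × Rl × ℕ) : Prop :=
  (false, q.1) ∈ V ∧ (true, q.2.1) ∈ V ∧ Z q.1 q.2.1 ∧ κ q.1 q.2.1 ≤ q.2.2 ∧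
    r (false, q.1) (true, q.2.1) ∧ v = (true, q.2.1) ∧ s = str q.1 (q.2.2 + 1)

private theorem used_iff (v : Vx) (s : Str) :
    Used Z V r κ v s ↔ (∃ q, CA Z V r κ v s q) ∨ ∃ q, CB Z V r κ v s q := by
  constructor
  · rintro ⟨y, w, n, h1, h2, h3, h4, h5 | h5⟩
    · exact Or.inl ⟨(y, w, n), h1, h2, h3, h4, h5⟩
    · exact Or.inr ⟨(y, w, n), h1, h2, h3, h4, h5⟩
  · rintro (⟨⟨y, w, n⟩, h1, h2, h3, h4, h5⟩ | ⟨⟨y, w, n⟩, h1, h2, h3, h4, h5⟩)
    · exact ⟨y, w, n, h1, h2, h3, h4, Or.inl h5⟩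
    · exact ⟨y, w, n, h1, h2, h3, h4, Or.inr h5⟩

open Classical in
/-- the generator of a basis element -/
private noncomputable def gn (g : Gr Z) : FreeGroup (Bas Z V r κ) :=
  if h : g ∈ Bas Z V r κ then FreeGroup.of ⟨g, h⟩ else 1

open Classical in
private noncomputable def FF (v : V)
    (rec : (v' : V) → r v'.1 v.1 → Str → FreeGroup (Bas Z V r κ)) (s : Str) :
    FreeGroup (Bas Z V r κ) :=
  if h : ∃ q, CA Z V r κ v.1 s q then
    (gn Z V r κ (GT Z h.choose.1 h.choose.2.1 (h.choose.2.2 + 1)) ^ 2)⁻¹ *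
      gn Z V r κ (GT Z h.choose.1 h.choose.2.1 h.choose.2.2) *
      (rec ⟨(true, h.choose.2.1), h.choose_spec.2.1⟩
        (by
          have h1 := h.choose_spec.2.2.2.2.1
          have h2 := h.choose_spec.2.2.2.2.2.1
          exact Eq.mpr (congrArg (r (true, h.choose.2.1)) h2) h1)
        (str h.choose.1 (h.choose.2.2 + 1)))⁻¹
  else if h : ∃ q, CB Z V r κ v.1 s q then
    (gn Z V r κ (GT Z h.choose.1 h.choose.2.1 (h.choose.2.2 + 1)) ^ 2 *
      rec ⟨(false, h.choose.1), h.choose_spec.1⟩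
        (by
          have h1 := h.choose_spec.2.2.2.2.1
          have h2 := h.choose_spec.2.2.2.2.2.1
          exact Eq.mpr (congrArg (r (false, h.choose.1)) h2) h1)
        (str h.choose.2.1 (h.choose.2.2 + 1)))⁻¹ *
      gn Z V r κ (GT Z h.choose.1 h.choose.2.1 h.choose.2.2)
  else gn Z V r κ (GX Z v.1 s)

end

theorem gob (hrr : GRRStmt) (hru : GRUStmt) : GOBStmt := by
  classical
  intro Z V r κ hwf htot hasym htrans hsepw hsepy
  have hrel := (hrr Z).1
  have wf : WellFounded (fun a b : V => r a.1 b.1) := by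
    rw [WellFounded.wellFounded_iff_has_min]
    rintro S ⟨a, ha⟩
    obtain ⟨v, hv, hmin⟩ := hwf (Subtype.val '' S) (by rintro _ ⟨b, _, rfl⟩; exact b.2)
      ⟨a.1, a, ha, rfl⟩
    obtain ⟨b, hb, rfl⟩ := hv
    exact ⟨b, hb, fun c hc => hmin c.1 ⟨c, hc, rfl⟩⟩
  have hlen : ∀ (w : Rl) n, (str w n).length = n := by
    intro w n
    simp [str]
  have uniA : ∀ v s q q', CA Z V r κ v s q → CA Z V r κ v s q' → q = q' := by
    rintro v s ⟨y, w, n⟩ ⟨y', w', n'⟩ ⟨h1, h2, h3, h4, h5, h6, h7⟩ ⟨k1, k2, k3, k4, k5, k6, k7⟩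
    simp only at h1 h2 h3 h4 h5 h6 h7 k1 k2 k3 k4 k5 k6 k7
    rw [h6] at k6
    obtain rfl : y = y' := (Prod.mk.inj k6).2
    have e : n = n' := by
      have := congrArg List.length (h7.symm.trans k7)
      rw [hlen, hlen] at this
      omega
    subst e
    rw [hsepw y w w' n h1 h2 k2 h3 k3 h5 k5 h4 k4 (h7.symm.trans k7)]
  have uniB : ∀ v s q q', CB Z V r κ v s q → CB Z V r κ v s q' → q = q' := by
    rintro v s ⟨y, w, n⟩ ⟨y', w', n'⟩ ⟨h1, h2, h3, h4, h5, h6, h7⟩ ⟨k1, k2, k3, k4, k5, k6, k7⟩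
    simp only at h1 h2 h3 h4 h5 h6 h7 k1 k2 k3 k4 k5 k6 k7
    rw [h6] at k6
    obtain rfl : w = w' := (Prod.mk.inj k6).2
    have e : n = n' := by
      have := congrArg List.length (h7.symm.trans k7)
      rw [hlen, hlen] at this
      omega
    subst e
    rw [hsepy y y' w n h1 k1 h2 h3 k3 h5 k5 h4 k4 (h7.symm.trans k7)]
  let X : V → Str → FreeGroup (Bas Z V r κ) := wf.fix (FF Z V r κ)
  have hX : ∀ v, X v = FF Z V r κ v (fun v' _ => X v') := fun v => wf.fix_eq _ v
  let x : Vx → Str → FreeGroup (Bas Z V r κ) := fun v s => if h : v ∈ V then X ⟨v, h⟩ s else 1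
  have hx : ∀ v (h : v ∈ V) s, x v s = X ⟨v, h⟩ s := fun v h s => by simp only [x, dif_pos h]
  let G : Rl → Rl → ℕ → FreeGroup (Bas Z V r κ) := fun y w n => gn Z V r κ (GT Z y w n)
  have xA : ∀ y w n, (false, y) ∈ V → (true, w) ∈ V → Z y w → κ y w ≤ n →
      r (true, w) (false, y) → x (false, y) (str w (n + 1)) =
        (G y w (n + 1) ^ 2)⁻¹ * G y w n * (x (true, w) (str y (n + 1)))⁻¹ := by
    intro y w n h1 h2 h3 h4 h5
    have hc : CA Z V r κ (false, y) (str w (n + 1)) (y, w, n) := ⟨h1, h2, h3, h4, h5, rfl, rfl⟩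
    have he : ∃ q, CA Z V r κ (false, y) (str w (n + 1)) q := ⟨_, hc⟩
    have hq : he.choose = (y, w, n) := uniA _ _ _ _ he.choose_spec hc
    rw [hx _ h1, hX]
    unfold FF
    rw [dif_pos he]
    have e1 : he.choose.1 = y := by rw [hq]
    have e2 : he.choose.2.1 = w := by rw [hq]
    have e3 : he.choose.2.2 = n := by rw [hq]
    have e4 : X ⟨(true, he.choose.2.1), he.choose_spec.2.1⟩ (str he.choose.1 (he.choose.2.2 + 1)) =
        x (true, w) (str y (n + 1)) := by
      rw [← hx, e1, e2, e3]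
    beta_reduce
    rw [e4, e1, e2, e3]
  have xB : ∀ y w n, (false, y) ∈ V → (true, w) ∈ V → Z y w → κ y w ≤ n →
      r (false, y) (true, w) → x (true, w) (str y (n + 1)) =
        (G y w (n + 1) ^ 2 * x (false, y) (str w (n + 1)))⁻¹ * G y w n := by
    intro y w n h1 h2 h3 h4 h5
    have hc : CB Z V r κ (true, w) (str y (n + 1)) (y, w, n) := ⟨h1, h2, h3, h4, h5, rfl, rfl⟩
    have he : ∃ q, CB Z V r κ (true, w) (str y (n + 1)) q := ⟨_, hc⟩
    have hn : ¬ ∃ q, CA Z V r κ (true, w) (str y (n + 1)) q := by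
      rintro ⟨q, -, -, -, -, -, h6, -⟩
      exact Bool.noConfusion (Prod.mk.inj h6).1
    have hq : he.choose = (y, w, n) := uniB _ _ _ _ he.choose_spec hc
    rw [hx _ h2, hX]
    unfold FF
    rw [dif_neg hn, dif_pos he]
    have e1 : he.choose.1 = y := by rw [hq]
    have e2 : he.choose.2.1 = w := by rw [hq]
    have e3 : he.choose.2.2 = n := by rw [hq]
    have e4 : X ⟨(false, he.choose.1), he.choose_spec.1⟩ (str he.choose.2.1 (he.choose.2.2 + 1)) =
        x (false, y) (str w (n + 1)) := by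
      rw [← hx, e1, e2, e3]
    beta_reduce
    rw [e4, e1, e2, e3]
  have xC : ∀ v (_ : v ∈ V) s, ¬ Used Z V r κ v s → x v s = gn Z V r κ (GX Z v s) := by
    intro v h s hn
    rw [used_iff, not_or] at hn
    rw [hx _ h, hX]
    unfold FF
    rw [dif_neg hn.1, dif_neg hn.2]
  let td : Rl → Rl → ℕ → FreeGroup (Bas Z V r κ) := fun y w k =>
    Nat.rec (G y w (κ y w)) (fun k a => a ^ 2 * x (false, y) (str w (κ y w - k)) *
      x (true, w) (str y (κ y w - k))) k
  let t : Rl → Rl → ℕ → FreeGroup (Bas Z V r κ) := fun y w n =>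
    if Z y w then (if κ y w ≤ n then G y w n else td y w (κ y w - n)) else 1
  have htd0 : ∀ y w, td y w 0 = G y w (κ y w) := fun y w => rfl
  have htd1 : ∀ y w k, td y w (k + 1) = td y w k ^ 2 * x (false, y) (str w (κ y w - k)) *
      x (true, w) (str y (κ y w - k)) := fun y w k => rfl
  have ht1 : ∀ y w n, Z y w → κ y w ≤ n → t y w n = G y w n := by
    intro y w n h1 h2
    simp only [t, if_pos h1, if_pos h2]
  have ht2 : ∀ y w n, Z y w → n < κ y w → t y w n = td y w (κ y w - n) := by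
    intro y w n h1 h2
    simp only [t, if_pos h1, if_neg (not_le.2 h2)]
  have hR : Rls Z V x t := by
    refine ⟨?_, ?_⟩
    · intro y w n h1 h2 h3
      rcases le_or_gt (κ y w) n with h4 | h4
      · rw [ht1 y w n h3 h4, ht1 y w (n + 1) h3 (by omega)]
        have hne : ((true, w) : Vx) ≠ (false, y) := by
          intro h
          exact Bool.noConfusion (Prod.mk.inj h).1
        rcases htot _ h2 _ h1 hne with h5 | h5
        · rw [xA y w n h1 h2 h3 h4 h5]
          group
        · rw [xB y w n h1 h2 h3 h4 h5]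
          group
      · rw [ht2 y w n h3 h4]
        obtain ⟨k, hk⟩ : ∃ k, κ y w = n + 1 + k := ⟨κ y w - (n + 1), by omega⟩
        have e1 : κ y w - n = k + 1 := by omega
        have e2 : κ y w - k = n + 1 := by omega
        rw [e1, htd1, e2]
        congr 3
        rcases Nat.eq_zero_or_pos k with h5 | h5
        · subst h5
          rw [htd0, ht1 y w (n + 1) h3 (by omega)]
          congr 1
        · rw [ht2 y w (n + 1) h3 (by omega)]
          congr 1
          omega
    · intro y w n _ _ h3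
      simp only [t, if_neg h3]
  obtain ⟨f, hf1, hf2⟩ := hru Z V _ x t hR
  have hmem : ∀ b ∈ Bas Z V r κ, b ∈ GV Z V := by
    rintro b (⟨v, s, hv, -, rfl⟩ | ⟨y, w, n, h1, h2, -, -, rfl⟩)
    · exact Subgroup.subset_closure (Or.inl ⟨v, s, hv, rfl⟩)
    · exact Subgroup.subset_closure (Or.inr ⟨y, w, n, h1, h2, rfl⟩)
  have hfb : ∀ (b : Bas Z V r κ), f ⟨b.1, hmem b.1 b.2⟩ = FreeGroup.of b := by
    rintro ⟨b, hb⟩
    have hb' := hb
    rcases hb' with ⟨v, s, hv, hn, e⟩ | ⟨y, w, n, h1, h2, h3, h4, e⟩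
    · subst e
      rw [hf1 v s _ hv, xC v hv s hn]
      unfold gn
      rw [dif_pos hb]
    · subst e
      rw [hf2 y w n _ h1 h2, ht1 y w n h3 h4]
      simp only [G]
      unfold gn
      rw [dif_pos hb]
  refine ⟨?_, ?_⟩
  · let L' : FreeGroup (Bas Z V r κ) →* GV Z V :=
      FreeGroup.lift (fun b => ⟨b.1, hmem b.1 b.2⟩)
    have h1 : f.comp L' = MonoidHom.id _ := by
      ext b
      simp [L', hfb]
    have h2 : (GV Z V).subtype.comp L' =
        FreeGroup.lift (fun b : Bas Z V r κ => (b : Gr Z)) := by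
      ext b
      simp [L']
    rw [← h2]
    have h3 : Function.Injective L' := by
      apply Function.LeftInverse.injective (g := f)
      intro g
      exact DFunLike.congr_fun h1 g
    exact (Subgroup.subtype_injective _).comp h3
  · apply le_antisymm
    · rw [Subgroup.closure_le]
      exact hmem
    · have hG : ∀ y w n, (false, y) ∈ V → (true, w) ∈ V → Z y w → κ y w ≤ n →
          GT Z y w n ∈ Subgroup.closure (Bas Z V r κ) := fun y w n h1 h2 h3 h4 =>
        Subgroup.subset_closure (Or.inr ⟨y, w, n, h1, h2, h3, h4, rfl⟩)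
      have hXm : ∀ v : V, ∀ s, GX Z v.1 s ∈ Subgroup.closure (Bas Z V r κ) := by
        intro v
        induction v using wf.induction with
        | _ v ih =>
          intro s
          by_cases hu : Used Z V r κ v.1 s
          · rw [used_iff] at hu
            rcases hu with ⟨⟨y, w, n⟩, h1, h2, h3, h4, h5, h6, h7⟩ |
              ⟨⟨y, w, n⟩, h1, h2, h3, h4, h5, h6, h7⟩
            · simp only at h1 h2 h3 h4 h5 h6 h7
              have h8 := ih ⟨(true, w), h2⟩ (by rw [h6]; exact h5) (str y (n + 1))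
              have h9 := hrel.rel y w n trivial trivial h3
              have e : GX Z (false, y) (str w (n + 1)) =
                  (GT Z y w (n + 1) ^ 2)⁻¹ * GT Z y w n * (GX Z (true, w) (str y (n + 1)))⁻¹ := by
                rw [h9]; group
              rw [h6, h7, e]
              exact mul_mem (mul_mem (inv_mem (pow_mem (hG y w (n + 1) h1 h2 h3 (by omega)) 2))
                (hG y w n h1 h2 h3 h4)) (inv_mem h8)
            · simp only at h1 h2 h3 h4 h5 h6 h7
              have h8 := ih ⟨(false, y), h1⟩ (by rw [h6]; exact h5) (str w (n + 1))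
              have h9 := hrel.rel y w n trivial trivial h3
              have e : GX Z (true, w) (str y (n + 1)) =
                  (GT Z y w (n + 1) ^ 2 * GX Z (false, y) (str w (n + 1)))⁻¹ * GT Z y w n := by
                rw [h9]; group
              rw [h6, h7, e]
              exact mul_mem (inv_mem (mul_mem (pow_mem (hG y w (n + 1) h1 h2 h3 (by omega)) 2)
                h8)) (hG y w n h1 h2 h3 h4)
          · exact Subgroup.subset_closure (Or.inl ⟨v.1, s, v.2, hu, rfl⟩)
      unfold GV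
      rw [Subgroup.closure_le]
      rintro g (⟨v, s, hv, rfl⟩ | ⟨y, w, n, h1, h2, rfl⟩)
      · exact hXm ⟨v, hv⟩ s
      · by_cases h3 : Z y w
        · have hT : ∀ k, k ≤ κ y w → GT Z y w (κ y w - k) ∈ Subgroup.closure (Bas Z V r κ) := by
            intro k
            induction k with
            | zero => intro _; exact hG y w _ h1 h2 h3 (by omega)
            | succ k ih =>
              intro hk
              have h9 := hrel.rel y w (κ y w - (k + 1)) trivial trivial h3
              rw [h9]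
              have e : κ y w - (k + 1) + 1 = κ y w - k := by omega
              rw [e]
              exact mul_mem (mul_mem (pow_mem (ih (by omega)) 2) (hXm ⟨_, h1⟩ _)) (hXm ⟨_, h2⟩ _)
          rcases le_or_gt (κ y w) n with h4 | h4
          · exact hG y w n h1 h2 h3 h4
          · have := hT (κ y w - n) (by omega)
            rwa [show κ y w - (κ y w - n) = n by omega] at this
        · rw [hrel.one y w n trivial trivial h3]
          exact one_mem _

end AO
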