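import Pool.Agent.H98.AO.Grp

set_option autoImplicit false

namespace AO

theorem grr : GRRStmt := by
  intro Z
  refine ⟨⟨?_, ?_⟩, ?_⟩
  · intro y w n _ _ hZ
    unfold GT GX
    rw [← QuotientGroup.mk_pow, ← QuotientGroup.mk_mul, ← QuotientGroup.mk_mul, QuotientGroup.eq]
    refine ⟨n + 1, fun m hm => ?_⟩
    obtain ⟨k, rfl⟩ : ∃ k, m = n + 1 + k := ⟨m - (n + 1), by omega⟩
    have e1 : n + 1 + k - n = k + 1 := by omega
    have e2 : n + 1 + k - (n + 1) = k := by omega
    have e3 : n + 1 + k - k = n + 1 := by omega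
    simp only [map_mul, map_inv, map_pow, FreeGroup.lift_apply_of, lev, if_pos hZ, e1, e2, tau, e3]
    group
  · intro y w n _ _ hZ
    unfold GT
    rw [QuotientGroup.eq_one_iff]
    refine ⟨0, fun m _ => ?_⟩
    simp only [FreeGroup.lift_apply_of, lev, if_neg hZ]
  · rw [eq_top_iff]
    rintro g -
    induction g using QuotientGroup.induction_on with
    | H g =>
      induction g using FreeGroup.induction_on with
      | C1 => exact one_mem _
      | of l =>
        rcases l with ⟨v, s⟩ | ⟨y, w, n⟩
        · exact Subgroup.subset_closure (Or.inl ⟨v, s, trivial, rfl⟩)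
        · exact Subgroup.subset_closure (Or.inr ⟨y, w, n, trivial, trivial, rfl⟩)
      | inv_of l h => exact inv_mem h
      | mul a b ha hb => exact mul_mem ha hb

end AO
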