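import Pool.Agent.H98.AO.Grp

set_option autoImplicit false

namespace AO

section
variable (Z : Rl → Rl → Prop) (V : Set Vx)

/-- the good letters -/
private def Gd : Gn → Prop
  | Sum.inl v => v.1 ∈ V
  | Sum.inr l => (false, l.1) ∈ V ∧ (true, l.2.1) ∈ V

private noncomputable def pim : FreeGroup {l : Gn // Gd V l} →* Gr Z :=
  (QuotientGroup.mk' (Tv Z)).comp (FreeGroup.lift (fun l => FreeGroup.of l.1))

private theorem pim_range : (pim Z V).range = GV Z V := by
  apply le_antisymm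
  · rintro _ ⟨g, rfl⟩
    induction g using FreeGroup.induction_on with
    | C1 => rw [map_one]; exact one_mem _
    | of l =>
      have e : pim Z V (FreeGroup.of l) = QuotientGroup.mk (FreeGroup.of l.1) := by
        simp [pim]
      rw [e]
      rcases l with ⟨⟨v, s⟩ | ⟨y, w, n⟩, h⟩
      · exact Subgroup.subset_closure (Or.inl ⟨v, s, h, rfl⟩)
      · exact Subgroup.subset_closure (Or.inr ⟨y, w, n, h.1, h.2, rfl⟩)
    | inv_of l h => rw [map_inv]; exact inv_mem h
    | mul a b ha hb => rw [map_mul]; exact mul_mem ha hb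
  · unfold GV
    rw [Subgroup.closure_le]
    rintro g (⟨v, s, hv, rfl⟩ | ⟨y, w, n, hy, hw, rfl⟩)
    · refine ⟨FreeGroup.of ⟨Sum.inl (v, s), hv⟩, ?_⟩
      simp [pim, GX]
    · refine ⟨FreeGroup.of ⟨Sum.inr (y, w, n), ⟨hy, hw⟩⟩, ?_⟩
      simp [pim, GT]

variable {K : Type} [Group K] (x : Vx → Str → K) (t : Rl → Rl → ℕ → K)

private noncomputable def psm (m : ℕ) : FreeGroup Ltr →* K :=
  FreeGroup.lift (Sum.elim (fun v => x v.1 v.2) (fun l => t l.1 l.2 m))

private noncomputable def thm : FreeGroup {l : Gn // Gd V l} →* K :=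
  FreeGroup.lift (fun l => Sum.elim (fun v : Vx × Str => x v.1 v.2)
    (fun l : Rl × Rl × ℕ => t l.1 l.2.1 l.2.2) l.1)

variable {Z V x t}

private theorem psm_tau (h : Rls Z V x t) {y w : Rl} (hy : (false, y) ∈ V) (hw : (true, w) ∈ V)
    (hZ : Z y w) (m : ℕ) : ∀ k, k ≤ m → psm x t m (tau y w m k) = t y w (m - k)
  | 0, _ => by simp [tau, psm]
  | k + 1, hk => by
    have h1 := h.rel y w (m - (k + 1)) hy hw hZ
    have e : m - (k + 1) + 1 = m - k := by omega
    rw [e] at h1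
    rw [tau, map_mul, map_mul, map_pow, psm_tau h hy hw hZ m k (by omega), h1]
    simp [psm]

private theorem agree (h : Rls Z V x t) (g : FreeGroup {l : Gn // Gd V l}) : ∃ m1, ∀ m, m1 ≤ m →
    psm x t m (FreeGroup.lift (lev Z m) (FreeGroup.lift (fun l => FreeGroup.of l.1) g)) =
      thm V x t g := by
  induction g using FreeGroup.induction_on with
  | C1 => exact ⟨0, fun m _ => by simp⟩
  | of l =>
    rcases l with ⟨⟨v, s⟩ | ⟨y, w, n⟩, hl⟩
    · refine ⟨0, fun m _ => ?_⟩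
      simp [lev, psm, thm]
    · refine ⟨n, fun m hm => ?_⟩
      obtain ⟨hy, hw⟩ := hl
      change (false, y) ∈ V at hy
      change (true, w) ∈ V at hw
      by_cases hZ : Z y w
      · simp only [FreeGroup.lift_apply_of, lev, if_pos hZ, thm, Sum.elim_inr]
        rw [psm_tau h hy hw hZ m (m - n) (by omega)]
        congr 1
        omega
      · simp only [FreeGroup.lift_apply_of, lev, if_neg hZ, thm, Sum.elim_inr, map_one]
        exact (h.one y w n hy hw hZ).symm
  | inv_of l h =>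
    obtain ⟨m1, h1⟩ := h
    exact ⟨m1, fun m hm => by simp only [map_inv]; simpa using congrArg (·⁻¹) (h1 m hm)⟩
  | mul a b ha hb =>
    obtain ⟨m1, h1⟩ := ha
    obtain ⟨m2, h2⟩ := hb
    refine ⟨max m1 m2, fun m hm => ?_⟩
    rw [map_mul, map_mul, map_mul, map_mul, h1 m (le_trans (le_max_left _ _) hm),
      h2 m (le_trans (le_max_right _ _) hm)]

private theorem ker_le (h : Rls Z V x t) : (pim Z V).ker ≤ (thm V x t).ker := by
  intro g hg
  rw [MonoidHom.mem_ker] at hg ⊢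
  have h1 : FreeGroup.lift (fun l : {l : Gn // Gd V l} => FreeGroup.of l.1) g ∈ Tv Z := by
    rwa [← QuotientGroup.eq_one_iff]
  obtain ⟨m0, hm0⟩ := h1
  obtain ⟨m1, hm1⟩ := agree h g
  have := hm1 (max m0 m1) (le_max_right _ _)
  rw [hm0 _ (le_max_left _ _), map_one] at this
  exact this.symm

end

theorem gru : GRUStmt := by
  intro Z V K _ x t h
  let f0 : (pim Z V).range →* K := (pim Z V).rangeRestrict.liftOfSurjective
    (pim Z V).rangeRestrict_surjective ⟨thm V x t, by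
      rw [MonoidHom.ker_rangeRestrict]
      exact ker_le h⟩
  let f : GV Z V →* K := f0.comp (Subgroup.inclusion (pim_range Z V).ge)
  have key : ∀ (l : {l : Gn // Gd V l}) (h1 : pim Z V (FreeGroup.of l) ∈ GV Z V),
      f ⟨pim Z V (FreeGroup.of l), h1⟩ = thm V x t (FreeGroup.of l) := by
    intro l h1
    have e : Subgroup.inclusion (pim_range Z V).ge ⟨pim Z V (FreeGroup.of l), h1⟩ =
      (pim Z V).rangeRestrict (FreeGroup.of l) := rfl
    change f0 (Subgroup.inclusion (pim_range Z V).ge ⟨pim Z V (FreeGroup.of l), h1⟩) = _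
    rw [e]
    exact MonoidHom.liftOfRightInverse_comp_apply _ _ _ _ _
  refine ⟨f, ?_, ?_⟩
  · intro v s h1 hv
    have e : GX Z v s = pim Z V (FreeGroup.of ⟨Sum.inl (v, s), hv⟩) := by simp [pim, GX]
    have h2 : pim Z V (FreeGroup.of ⟨Sum.inl (v, s), hv⟩) ∈ GV Z V := e ▸ h1
    have e2 : (⟨GX Z v s, h1⟩ : GV Z V) = ⟨_, h2⟩ := Subtype.ext e
    rw [e2, key]
    simp [thm]
  · intro y w n h1 hy hw
    have e : GT Z y w n = pim Z V (FreeGroup.of ⟨Sum.inr (y, w, n), ⟨hy, hw⟩⟩) := by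
      simp [pim, GT]
    have h2 : pim Z V (FreeGroup.of ⟨Sum.inr (y, w, n), ⟨hy, hw⟩⟩) ∈ GV Z V := e ▸ h1
    have e2 : (⟨GT Z y w n, h1⟩ : GV Z V) = ⟨_, h2⟩ := Subtype.ext e
    rw [e2, key]
    simp [thm]

end AO
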