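import Pool.Agent.H36.AO.PFin

set_option autoImplicit false

namespace AO.BP

theorem lep_PC_rs {ι : Type} {T : ι → ι → Prop} {p : Cn ι} {n : ℕ} (h : PC T p n) (D : Set ι) :
    PC T (p.rs D) n := by
  have ha : ∀ i, (p.rs D).a i ≠ [] → (p.rs D).a i = p.a i ∧ i ∈ D := by
    intro i hi
    by_cases hD : i ∈ D
    · exact ⟨if_pos hD, hD⟩
    · exact absurd (if_neg hD) hi
  have ht : ∀ i, (p.rs D).t i ≠ [] → (p.rs D).t i = p.t i ∧ i ∈ D := by
    intro i hi
    by_cases hD : i ∈ D
    · exact ⟨if_pos hD, hD⟩
    · exact absurd (if_neg hD) hi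
  refine ⟨h.fa.subset fun i hi => ?_, h.ft.subset fun i hi => ?_, fun i hi => ?_, fun d hd => ?_,
    fun d => ?_, ?_⟩
  · have := (ha i hi).1
    intro he
    exact hi (this.trans he)
  · have := (ht i hi).1
    intro he
    exact hi (this.trans he)
  · have := (ha i hi).1
    rw [this]
    exact h.la i (by rwa [← this])
  · have := (ht d hd).1
    rw [this]
    exact h.lt d (by rwa [← this])
  · by_cases hD : d ∈ D
    · have : (p.rs D).t d = p.t d := if_pos hD
      rw [this]
      exact h.adm d
    · have : (p.rs D).t d = [] := if_neg hD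
      rw [this]
      exact ⟨fun k s x x' hk => absurd hk (Nat.not_lt_zero _),
        fun k s hk => absurd hk (Nat.not_lt_zero _)⟩
  · rintro d i m ⟨hd, hi, hB⟩
    have e1 : (p.rs D).t d = p.t d := if_pos hd
    have e2 : (p.rs D).a i = p.a i := if_pos hi
    rw [e1, e2]
    exact h.b d i m hB

theorem lep_one (ι : Type) (T : ι → ι → Prop) (n : ℕ) :
    PC T (⟨fun _ => [], fun _ => [], fun _ _ _ => False⟩ : Cn ι) n := by
  refine ⟨?_, ?_, fun i h => absurd rfl h, fun i h => absurd rfl h, fun d => ?_,
    fun d i m h => h.elim⟩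
  · simp
  · simp
  · exact ⟨fun k s x x' hk => absurd hk (Nat.not_lt_zero _),
      fun k s hk => absurd hk (Nat.not_lt_zero _)⟩

theorem ao_lep : LEPStmt := by
  refine ⟨?_, ?_, ?_, ?_, ?_, ?_, ?_⟩
  · intro ι p
    exact ⟨fun i => List.prefix_rfl, fun i => List.prefix_rfl, fun d i m h => h⟩
  · intro ι p q r h1 h2
    exact ⟨fun i => (h2.a i).trans (h1.a i), fun i => (h2.t i).trans (h1.t i),
      fun d i m h => h1.B d i m (h2.B d i m h)⟩
  · intro ι p D
    refine ⟨fun i => ?_, fun i => ?_, fun d i m h => h.2.2⟩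
    · by_cases hD : i ∈ D
      · have : (p.rs D).a i = p.a i := if_pos hD
        rw [this]
      · have : (p.rs D).a i = [] := if_neg hD
        rw [this]
        exact List.nil_prefix
    · by_cases hD : i ∈ D
      · have : (p.rs D).t i = p.t i := if_pos hD
        rw [this]
      · have : (p.rs D).t i = [] := if_neg hD
        rw [this]
        exact List.nil_prefix
  · intro ι p q D h
    refine ⟨fun i => ?_, fun i => ?_, fun d i m h' => ⟨h'.1, h'.2.1, h.B d i m h'.2.2⟩⟩
    · by_cases hD : i ∈ D
      · have e1 : (p.rs D).a i = p.a i := if_pos hD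
        have e2 : (q.rs D).a i = q.a i := if_pos hD
        rw [e1, e2]
        exact h.a i
      · have e1 : (p.rs D).a i = [] := if_neg hD
        rw [e1]
        exact List.nil_prefix
    · by_cases hD : i ∈ D
      · have e1 : (p.rs D).t i = p.t i := if_pos hD
        have e2 : (q.rs D).t i = q.t i := if_pos hD
        rw [e1, e2]
        exact h.t i
      · have e1 : (p.rs D).t i = [] := if_neg hD
        rw [e1]
        exact List.nil_prefix
  · intro ι T p D h
    obtain ⟨n, hn⟩ := h.pc
    refine ⟨⟨n, lep_PC_rs hn D⟩, ?_⟩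
    rintro d i j m m' ⟨hd, hi, hB⟩ ⟨-, hj, hB'⟩ he
    have e1 : (p.rs D).a i = p.a i := if_pos hi
    have e2 : (p.rs D).a j = p.a j := if_pos hj
    rw [e1, e2] at he
    exact h.inj d i j m m' hB hB' he
  · intro ι T
    exact ⟨⟨0, lep_one ι T 0⟩, fun d i j m m' h => h.elim⟩
  · intro ι T p q n hp hq h
    constructor
    · intro i hi
      have h1 := h.a i
      have hq0 : q.a i ≠ [] := by
        intro h0
        rw [h0] at h1
        exact hi (List.prefix_nil.1 h1)
      exact (h1.eq_of_length ((hp.la i hi).trans (hq.la i hq0).symm)).symm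
    · intro i hi
      have h1 := h.t i
      have hq0 : q.t i ≠ [] := by
        intro h0
        rw [h0] at h1
        exact hi (List.prefix_nil.1 h1)
      exact (h1.eq_of_length ((hp.lt i hi).trans (hq.lt i hq0).symm)).symm

end AO.BP
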