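import Pool.Agent.H98.AO.Grp

set_option autoImplicit false

namespace AO

theorem nsx : NSXStmt := by
  classical
  intro G _ B H T len hB hT1 htree hcov huni
  -- the action on the transversal
  choose st hst1 hst2 using hcov
  have huq : ∀ g, ∀ t ∈ T, g * t⁻¹ ∈ H → st g = t := by
    intro g t ht hg
    apply huni _ (hst1 g) _ ht
    have : st g * t⁻¹ = (g * (st g)⁻¹)⁻¹ * (g * t⁻¹) := by group
    rw [this]
    exact mul_mem (inv_mem (hst2 g)) hg
  have hst : ∀ t ∈ T, st t = t := fun t ht => huq t t ht (by simp)
  have hact : ∀ g h, st (st g * h) = st (g * h) := by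
    intro g h
    apply (huq _ _ (hst1 _) _)
    have : st g * h * (st (g * h))⁻¹ = (g * (st g)⁻¹)⁻¹ * (g * h * (st (g * h))⁻¹) := by group
    rw [this]
    exact mul_mem (inv_mem (hst2 g)) (hst2 _)
  set S : Set G := {h | h ∈ H ∧ h ≠ 1 ∧ ∃ t ∈ T, ∃ b ∈ B, ∃ t' ∈ T, h = t * b * t'⁻¹} with hS
  -- the element of the basis
  let sg : G → G → G := fun t b => t * b * (st (t * b))⁻¹
  have hsgH : ∀ t b, sg t b ∈ H := fun t b => hst2 (t * b)
  let sh : G → G → FreeGroup S := fun t b =>
    if h : sg t b ∈ S then FreeGroup.of ⟨sg t b, h⟩ else 1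
  -- the action on T × F
  let ρb : B → Equiv.Perm (T × FreeGroup S) := fun b =>
    { toFun := fun p => (⟨st (p.1.1 * b.1⁻¹), hst1 _⟩, sh (st (p.1.1 * b.1⁻¹)) b.1 * p.2)
      invFun := fun p => (⟨st (p.1.1 * b.1), hst1 _⟩, (sh p.1.1 b.1)⁻¹ * p.2)
      left_inv := by
        rintro ⟨⟨t, ht⟩, u⟩
        have e1 : st (st (t * b.1⁻¹) * b.1) = t := by
          rw [hact, inv_mul_cancel_right, hst t ht]
        simp only [Prod.mk.injEq, Subtype.mk.injEq]
        refine ⟨e1, ?_⟩
        rw [inv_mul_cancel_left]
      right_inv := by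
        rintro ⟨⟨t, ht⟩, u⟩
        have e1 : st (st (t * b.1) * b.1⁻¹) = t := by
          rw [hact, mul_inv_cancel_right, hst t ht]
        simp only [Prod.mk.injEq, Subtype.mk.injEq]
        refine ⟨e1, ?_⟩
        rw [e1, mul_inv_cancel_left] }
  have hbij : Function.Bijective (FreeGroup.lift (fun b : B => (b : G))) := by
    refine ⟨hB.1, ?_⟩
    rw [← MonoidHom.range_eq_top, ← hB.2, FreeGroup.range_lift_eq_closure]
    congr 1
    exact Subtype.range_coe
  let e : FreeGroup B ≃* G := MulEquiv.ofBijective _ hbij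
  let ρ : G →* Equiv.Perm (T × FreeGroup S) := (FreeGroup.lift ρb).comp e.symm.toMonoidHom
  have hρ : ∀ b : B, ρ b.1 = ρb b := by
    intro b
    have : e.symm b.1 = FreeGroup.of b := by
      rw [MulEquiv.symm_apply_eq]
      simp [e]
    simp [ρ, this]
  have hρb : ∀ (b : B) (t : T) (t' : T) (u : FreeGroup S), st (t'.1 * b.1) = t.1 →
      ρ b.1 (t, u) = (t', sh t'.1 b.1 * u) := by
    intro b t t' u h
    rw [hρ]
    have e1 : st (t.1 * b.1⁻¹) = t'.1 := by
      rw [← h, hact, mul_inv_cancel_right, hst _ t'.2]
    change ((⟨st (t.1 * b.1⁻¹), hst1 _⟩ : T), sh (st (t.1 * b.1⁻¹)) b.1 * u) = _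
    simp only [Prod.mk.injEq]
    exact ⟨Subtype.ext e1, by rw [e1]⟩
  -- tree induction
  have hone : ∀ (t : T) (u : FreeGroup S), ρ t.1 (t, u) = (⟨1, hT1⟩, u) := by
    have key : ∀ n, ∀ (t : T), len t.1 ≤ n → ∀ u : FreeGroup S, ρ t.1 (t, u) = (⟨1, hT1⟩, u) := by
      intro n
      induction n with
      | zero =>
        intro t ht u
        by_cases h1 : t.1 = 1
        · have : t = ⟨1, hT1⟩ := Subtype.ext h1
          rw [this, map_one]
          rfl
        · obtain ⟨t', _, hl, _⟩ := htree t.1 t.2 h1
          omega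
      | succ n ih =>
        intro t ht u
        by_cases h1 : t.1 = 1
        · have : t = ⟨1, hT1⟩ := Subtype.ext h1
          rw [this, map_one]
          rfl
        · obtain ⟨t', ht', hl, b, hb, hh⟩ := htree t.1 t.2 h1
          rcases hh with hh | hh
          · have e1 : st (t' * b) = t.1 := by rw [← hh]; exact hst _ t.2
            have e2 : sh t' b = 1 := by
              have : sg t' b = 1 := by
                simp only [sg]
                rw [e1, ← hh, mul_inv_cancel]
              have hn : sg t' b ∉ S := by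
                rw [this]
                rintro ⟨-, h, -⟩
                exact h rfl
              simp only [sh, dif_neg hn]
            have e3 := hρb ⟨b, hb⟩ t ⟨t', ht'⟩ u e1
            have e4 : ρ t.1 (t, u) = ρ t' (ρ b (t, u)) := by
              rw [hh, map_mul]
              rfl
            rw [e4, e3, e2, one_mul]
            exact ih ⟨t', ht'⟩ (by simp only; omega) u
          · have e1 : st (t.1 * b) = t' := by rw [← hh]; exact hst _ ht'
            have e2 : sh t.1 b = 1 := by
              have : sg t.1 b = 1 := by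
                simp only [sg]
                rw [e1, ← hh, mul_inv_cancel]
              have hn : sg t.1 b ∉ S := by
                rw [this]
                rintro ⟨-, h, -⟩
                exact h rfl
              simp only [sh, dif_neg hn]
            have e3 := hρb ⟨b, hb⟩ ⟨t', ht'⟩ t u e1
            rw [e2, one_mul] at e3
            have e5 : t.1 = t' * b⁻¹ := by rw [hh, mul_inv_cancel_right]
            have e4 : ρ t.1 (t, u) = ρ t' ((ρ b)⁻¹ (t, u)) := by
              rw [← map_inv]
              conv_lhs => rw [e5]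
              rw [map_mul]
              rfl
            have e6 : (ρ b)⁻¹ (t, u) = (⟨t', ht'⟩, u) := by
              rw [Equiv.Perm.inv_eq_iff_eq]
              exact e3.symm
            rw [e4, e6]
            exact ih ⟨t', ht'⟩ (by simp only; omega) u
    exact fun t u => key _ t le_rfl u
  have hgen : ∀ (s : S) (u : FreeGroup S), ρ s.1 (⟨1, hT1⟩, u) = (⟨1, hT1⟩, FreeGroup.of s * u) := by
    rintro ⟨s, hs⟩ u
    have hs' := hs
    obtain ⟨hsH, hs1, t, ht, b, hb, t', ht', hh⟩ := hs'
    have e1 : st (t * b) = t' := huq _ _ ht' (by rw [← hh]; exact hsH)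
    have e2 : sg t b = s := by
      simp only [sg]
      rw [e1, hh]
    have e3 : sh t b = FreeGroup.of ⟨s, hs⟩ := by
      simp only [sh]
      have : sg t b ∈ S := by rw [e2]; exact hs
      rw [dif_pos this]
      congr 1
      exact Subtype.ext e2
    have e4 : (ρ t')⁻¹ (⟨1, hT1⟩, u) = (⟨t', ht'⟩, u) := by
      rw [Equiv.Perm.inv_eq_iff_eq]
      exact (hone ⟨t', ht'⟩ u).symm
    have e5 : ρ s (⟨1, hT1⟩, u) = ρ t (ρ b ((ρ t')⁻¹ (⟨1, hT1⟩, u))) := by
      rw [hh, map_mul, map_mul, map_inv]
      rfl
    change ρ s (⟨1, hT1⟩, u) = _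
    rw [e5, e4, hρb ⟨b, hb⟩ ⟨t', ht'⟩ ⟨t, ht⟩ u e1, e3]
    exact hone ⟨t, ht⟩ _
  have hword : ∀ (w : FreeGroup S) (u : FreeGroup S),
      ρ (FreeGroup.lift (fun b : S => (b : G)) w) (⟨1, hT1⟩, u) = (⟨1, hT1⟩, w * u) := by
    intro w
    induction w using FreeGroup.induction_on with
    | C1 => intro u; rw [map_one, map_one, one_mul]; rfl
    | of s => intro u; rw [FreeGroup.lift_apply_of]; exact hgen s u
    | inv_of s h =>
      intro u
      rw [map_inv, map_inv, Equiv.Perm.inv_eq_iff_eq, FreeGroup.lift_apply_of, hgen,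
        mul_inv_cancel_left]
    | mul a b ha hb =>
      intro u
      have : ρ (FreeGroup.lift (fun b : S => (b : G)) (a * b)) (⟨1, hT1⟩, u) =
        ρ (FreeGroup.lift (fun b : S => (b : G)) a)
          (ρ (FreeGroup.lift (fun b : S => (b : G)) b) (⟨1, hT1⟩, u)) := by
        rw [map_mul, map_mul]
        rfl
      rw [this, hb, ha, mul_assoc]
  refine ⟨?_, ?_⟩
  · rw [injective_iff_map_eq_one]
    intro w hw
    have h1 := hword w 1
    rw [hw, map_one] at h1
    have h2 : (1 : FreeGroup S) = w * 1 := congrArg Prod.snd h1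
    rw [mul_one] at h2
    exact h2.symm
  · apply le_antisymm
    · rw [Subgroup.closure_le]
      rintro h ⟨hh, -⟩
      exact hh
    · have key : ∀ g : G, ∀ t, t ∈ T → t * g * (st (t * g))⁻¹ ∈ Subgroup.closure S := by
        intro g
        have hg : g ∈ Subgroup.closure B := by rw [hB.2]; trivial
        induction hg using Subgroup.closure_induction with
        | mem b hb =>
          intro t ht
          by_cases h1 : t * b * (st (t * b))⁻¹ = 1
          · rw [h1]; exact one_mem _
          · exact Subgroup.subset_closure ⟨hst2 _, h1, t, ht, b, hb, _, hst1 _, rfl⟩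
        | one =>
          intro t ht
          rw [mul_one, hst t ht, mul_inv_cancel]
          exact one_mem _
        | mul a b _ _ ha hb =>
          intro t ht
          have h1 := ha t ht
          have h2 := hb (st (t * a)) (hst1 _)
          rw [hact] at h2
          have e : t * (a * b) * (st (t * (a * b)))⁻¹ = (t * a * (st (t * a))⁻¹) *
              (st (t * a) * b * (st (t * a * b))⁻¹) := by
            rw [← mul_assoc t a b]
            group
          rw [e]
          exact mul_mem h1 h2
        | inv a _ ha =>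
          intro t ht
          have h1 := ha (st (t * a⁻¹)) (hst1 _)
          rw [hact, inv_mul_cancel_right, hst t ht] at h1
          have e : t * a⁻¹ * (st (t * a⁻¹))⁻¹ = (st (t * a⁻¹) * a * t⁻¹)⁻¹ := by group
          rw [e]
          exact inv_mem h1
      intro h hh
      have h1 := key h 1 hT1
      have h2 : st (1 * h) = 1 := huq _ _ hT1 (by simpa using hh)
      rw [h2] at h1
      simpa using h1

end AO
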