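import Pool.Agent.H94.AO.QStmts
import Pool.Agent.H31.MA.WX

/-!
Module PRX: the subsets of `om`, countable sets and the first uncountable ordinal are preserved.
-/

set_option linter.unusedVariables false
set_option linter.unusedSectionVars false
set_option synthInstance.maxSize 100000

namespace AO

open SW

theorem prx (hqfn : QFNStmt) (hcbt : CBTStmt) : PRXStmt := by
  intro M _ _ _ w l F G hR hF hG _
  have tf := traF hG
  have ef := embF hG
  have hl : E (om : M) l := hR.alf 0 om rfl
  -- subsets of `om`
  have h1 : pow (om : Ext F G) = emb F G (pow om) := by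
    refine ext fun x => ?_
    rw [mem_pow]
    constructor
    · intro hx
      have hv : ∀ i : M, (E (emb F G i) x → sep (suc (emp : Ext F G))
          (fun _ => E (emb F G i) x) = suc emp) ∧ (¬ E (emb F G i) x →
          sep (suc (emp : Ext F G)) (fun _ => E (emb F G i) x) = emp) := by
        intro i
        constructor
        · intro hix
          refine ext fun z => ?_
          rw [mem_sep]
          exact ⟨fun h => h.1, fun h => ⟨h, hix⟩⟩
        · intro hix
          refine ext fun z => ?_
          rw [mem_sep]
          exact ⟨fun h => absurd h.2 hix, fun h => absurd h (not_mem_emp z)⟩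
      obtain ⟨g, hg, -⟩ := hqfn M w l F G hR hF hG om (ins (suc emp) (ins emp emp))
        (fun i => sep (suc emp) (fun _ => E i x)) hl inferInstance (by
          intro i hi
          rw [tf.ins, tf.ins, tf.suc, tf.emp, mem_ins, mem_ins]
          by_cases hix : E (emb F G i) x
          · exact Or.inr ((hv i).1 hix)
          · exact Or.inl (Or.inr ((hv i).2 hix)))
      have hx' : x = emb F G (sep om (fun i => E emp (app g i))) := by
        refine ext fun z => ?_
        constructor
        · intro hz
          have hz1 := hx z hz
          rw [← tf.om] at hz1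
          obtain ⟨i, hi, rfl⟩ := ef.trans _ _ hz1
          rw [ef.mem, mem_sep]
          refine ⟨hi, ?_⟩
          have h2 := (hg i hi).2
          rw [(hv i).1 hz, ← tf.emp, ← tf.suc, ef.inj] at h2
          rw [← h2]
          simp
        · intro hz
          obtain ⟨i, hi, rfl⟩ := ef.trans _ _ hz
          rw [mem_sep] at hi
          by_contra hn
          have h2 := (hg i hi.1).2
          rw [(hv i).2 hn, ← tf.emp, ef.inj] at h2
          rw [← h2] at hi
          exact not_mem_emp _ hi.2
      rw [hx', ef.mem, mem_pow]
      exact fun z hz => (mem_sep.1 hz).1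
    · intro hx
      obtain ⟨x0, hx0, rfl⟩ := ef.trans _ _ hx
      rw [← tf.om, tf.sub]
      exact mem_pow.1 hx0
  -- countable sets
  have h2 : ∀ x : M, Cb (emb F G x) → Cb x := by
    rintro x ⟨f, hf1, hf2⟩
    have hv : ∀ (i : M) (y : M), E i om → E y x → E (opair (emb F G y) (emb F G i)) f →
        sUn (sep (emb F G x) (fun y => E (opair y (emb F G i)) f)) = emb F G y := by
      intro i y hi hy hyi
      have e : sep (emb F G x) (fun y => E (opair y (emb F G i)) f) = sing (emb F G y) := by
        refine ext fun z => ?_
        rw [mem_sep, mem_sing]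
        constructor
        · rintro ⟨hz1, hz2⟩
          refine hf2 _ _ (emb F G i) hz1 ((ef.mem _ _).2 hy) ?_ hz2 hyi
          rw [← tf.om, ef.mem]
          exact hi
        · rintro rfl
          exact ⟨(ef.mem _ _).2 hy, hyi⟩
      rw [e]
      refine ext fun z => ?_
      rw [mem_sUn]
      constructor
      · rintro ⟨y', hy', hz⟩
        rw [mem_sing] at hy'
        rwa [hy'] at hz
      · intro hz
        exact ⟨_, mem_sing.2 rfl, hz⟩
    obtain ⟨g, hg, -⟩ := hqfn M w l F G hR hF hG om (ins emp x)
      (fun i => sUn (sep (emb F G x) (fun y => E (opair y i) f))) hl inferInstance (by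
        intro i hi
        rw [tf.ins, tf.emp, mem_ins]
        by_cases h : ∃ y, E y (emb F G x) ∧ E (opair y (emb F G i)) f
        · obtain ⟨y, hy, hyi⟩ := h
          obtain ⟨y0, hy0, rfl⟩ := ef.trans _ _ hy
          rw [hv i y0 hi hy0 hyi]
          exact Or.inl hy
        · right
          refine ext fun z => ?_
          rw [mem_sUn]
          constructor
          · rintro ⟨y, hy, -⟩
            rw [mem_sep] at hy
            exact absurd ⟨y, hy⟩ h
          · intro hz
            exact absurd hz (not_mem_emp z))
    have hc := hcbt M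
    refine hc.sub (hc.img (fun i => app g i) inferInstance hc.om) ?_
    intro y hy
    rw [mem_img]
    obtain ⟨n, hn, hyn⟩ := hf1 _ ((ef.mem _ _).2 hy)
    rw [← tf.om] at hn
    obtain ⟨i, hi, rfl⟩ := ef.trans _ _ hn
    refine ⟨i, hi, ?_⟩
    have h3 := (hg i hi).2
    rw [hv i y hi hy hyn, ef.inj] at h3
    exact h3
  refine ⟨h1, fun x => ⟨h2 x, fun hx => wx_cb hG hx⟩, tf.ord w hR.w1.1,
    fun h => hR.w1.2.1 (h2 w h), fun a ha => ?_⟩
  obtain ⟨b, hb, rfl⟩ := ef.trans _ _ ha
  exact wx_cb hG (hR.w1.2.2 b hb)

end AO
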