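import Pool.Agent.H98.AO.Grp
import Mathlib.GroupTheory.FreeGroup.Reduce

set_option autoImplicit false

namespace AO

namespace RFGp

variable {X : Type} {P : Type} [Group P]

/-- the value of a word -/
def vl (f : X → P) (L : List (X × Bool)) : P :=
  (L.map fun l => cond l.2 (f l.1) (f l.1)⁻¹).prod

theorem vl_nil (f : X → P) : vl f [] = 1 := rfl

theorem vl_cons (f : X → P) (l : X × Bool) (L : List (X × Bool)) :
    vl f (l :: L) = cond l.2 (f l.1) (f l.1)⁻¹ * vl f L := by simp [vl]

theorem vl_append (f : X → P) (L M : List (X × Bool)) : vl f (L ++ M) = vl f L * vl f M := by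
  simp [vl]

theorem lift_mk' (f : X → P) (L : List (X × Bool)) : FreeGroup.lift f (FreeGroup.mk L) = vl f L :=
  FreeGroup.lift_mk

section step
variable [DecidableEq X] [DecidableEq P]

/-- the space acted upon -/
abbrev Om (X P : Type) := P × (P × X → ZMod 2)

/-- the action of a generator -/
def Fx (f : X → P) (x : X) : Equiv.Perm (Om X P) where
  toFun q := (f x * q.1, q.2 + Pi.single (q.1, x) 1)
  invFun q := ((f x)⁻¹ * q.1, q.2 - Pi.single ((f x)⁻¹ * q.1, x) 1)
  left_inv := by
    rintro ⟨p, a⟩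
    simp
  right_inv := by
    rintro ⟨p, a⟩
    simp

/-- the action -/
noncomputable def rho (f : X → P) : FreeGroup X →* Equiv.Perm (Om X P) := FreeGroup.lift (Fx f)

theorem rho_of (f : X → P) (x : X) : rho f (FreeGroup.of x) = Fx f x := by simp [rho]

theorem rho_form (f : X → P) (g : FreeGroup X) : ∃ c : P → (P × X → ZMod 2), ∀ p a,
    rho f g (p, a) = (FreeGroup.lift f g * p, a + c p) := by
  induction g using FreeGroup.induction_on with
  | C1 => exact ⟨fun _ => 0, fun p a => by simp⟩
  | of x =>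
    refine ⟨fun p => Pi.single (p, x) 1, fun p a => ?_⟩
    rw [rho_of, FreeGroup.lift_apply_of]
    rfl
  | inv_of x _ =>
    refine ⟨fun p => - Pi.single ((f x)⁻¹ * p, x) 1, fun p a => ?_⟩
    rw [map_inv, rho_of, map_inv, FreeGroup.lift_apply_of, ← sub_eq_add_neg]
    rfl
  | mul g h hg hh =>
    obtain ⟨c, hc⟩ := hg
    obtain ⟨d, hd⟩ := hh
    refine ⟨fun p => d p + c (FreeGroup.lift f h * p), fun p a => ?_⟩
    rw [map_mul, Equiv.Perm.mul_apply, hd, hc, map_mul, mul_assoc, add_assoc]

/-- the new group -/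
abbrev KK (f : X → P) : Type := (rho f).range

theorem pg (hP : IsPGroup 2 P) (f : X → P) : IsPGroup 2 (KK f) := by
  rintro ⟨_, g, rfl⟩
  obtain ⟨m, hm⟩ := hP (FreeGroup.lift f g)
  refine ⟨m + 1, ?_⟩
  apply Subtype.ext
  change (rho f g) ^ (2 ^ (m + 1)) = 1
  rw [pow_succ, pow_mul, ← map_pow]
  obtain ⟨c, hc⟩ := rho_form f (g ^ 2 ^ m)
  ext1 ⟨p, a⟩
  rw [pow_two, Equiv.Perm.mul_apply, hc, hc, map_pow, hm]
  simp only [one_mul, Equiv.Perm.coe_one, id]
  congr 1
  rw [add_assoc]
  have : c p + c p = 0 := by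
    ext e
    exact CharTwo.add_self_eq_zero _
  rw [this, add_zero]

/-- the weight of a path -/
noncomputable def cn (f : X → P) (L : List (X × Bool)) : P × X → ZMod 2 :=
  (rho f (FreeGroup.mk L) (1, 0)).2

theorem rho_mk (f : X → P) (L : List (X × Bool)) :
    rho f (FreeGroup.mk L) (1, 0) = (vl f L, cn f L) := by
  obtain ⟨c, hc⟩ := rho_form f (FreeGroup.mk L)
  apply Prod.ext
  · rw [hc, lift_mk', mul_one]
  · rfl

/-- the edge -/
def ed (f : X → P) (l : X × Bool) (M : List (X × Bool)) : P × X :=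
  (if l.2 then vl f M else vl f (l :: M), l.1)

theorem cn_cons (f : X → P) (l : X × Bool) (L : List (X × Bool)) :
    cn f (l :: L) = cn f L + Pi.single (ed f l L) 1 := by
  have e : FreeGroup.mk (l :: L) = FreeGroup.mk [l] * FreeGroup.mk L := by
    rw [FreeGroup.mul_mk]; rfl
  unfold cn
  rw [e, map_mul, Equiv.Perm.mul_apply, rho_mk]
  rcases l with ⟨x, b⟩
  cases b
  · have e2 : FreeGroup.mk [(x, false)] = (FreeGroup.of x)⁻¹ := by
      rw [FreeGroup.of, FreeGroup.inv_mk]; rfl
    rw [e2, map_inv, rho_of]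
    change cn f L - Pi.single ((f x)⁻¹ * vl f L, x) 1 = _
    have e3 : ed f (x, false) L = ((f x)⁻¹ * vl f L, x) := by
      simp [ed, vl_cons]
    rw [e3, sub_eq_add_neg]
    congr 1
    ext e
    exact CharTwo.neg_eq _
  · have e2 : FreeGroup.mk [(x, true)] = FreeGroup.of x := rfl
    rw [e2, rho_of]
    change cn f L + Pi.single (vl f L, x) 1 = _
    have e3 : ed f (x, true) L = (vl f L, x) := by
      simp [ed]
    rw [e3]

theorem cn_nil (f : X → P) : cn f [] = 0 := by
  have : FreeGroup.mk ([] : List (X × Bool)) = 1 := rfl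
  unfold cn
  rw [this, map_one]
  rfl

theorem exists_edge (f : X → P) (e : P × X) : ∀ M : List (X × Bool), cn f M e ≠ 0 →
    ∃ M1 l M2, M = M1 ++ l :: M2 ∧ ed f l M2 = e
  | [], h => by rw [cn_nil] at h; exact absurd rfl h
  | l :: M, h => by
    by_cases he : ed f l M = e
    · exact ⟨[], l, M, rfl, he⟩
    · rw [cn_cons, Pi.add_apply, Pi.single_apply, if_neg (Ne.symm he), add_zero] at h
      obtain ⟨M1, l', M2, h1, h2⟩ := exists_edge f e M h
      exact ⟨l :: M1, l', M2, by rw [h1]; rfl, h2⟩

omit [DecidableEq X] in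
theorem red_mid {A M B : List (X × Bool)} (h : FreeGroup.IsReduced (A ++ M ++ B)) :
    FreeGroup.IsReduced M := by
  unfold FreeGroup.IsReduced at h ⊢
  exact (h.left_of_append).right_of_append

theorem step_ne (f : X → P) (n : ℕ)
    (ih : ∀ L : List (X × Bool), FreeGroup.IsReduced L → L ≠ [] → L.length ≤ n → vl f L ≠ 1)
    (L : List (X × Bool)) (hL : FreeGroup.IsReduced L) (h0 : L ≠ []) (hn : L.length ≤ n + 1) :
    rho f (FreeGroup.mk L) ≠ 1 := by
  intro h
  have h1 := rho_mk f L
  rw [h] at h1
  have h2 : vl f L = 1 := (congrArg Prod.fst h1).symm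
  have h3 : cn f L = 0 := (congrArg Prod.snd h1).symm
  have h4 : L.length = n + 1 := by
    by_contra hne
    exact ih L hL h0 (by omega) h2
  obtain ⟨l0, L', rfl⟩ := List.exists_cons_of_ne_nil h0
  have h5 : cn f L' (ed f l0 L') ≠ 0 := by
    intro h6
    have := congrFun h3 (ed f l0 L')
    rw [cn_cons, Pi.add_apply, h6, Pi.single_eq_same, zero_add] at this
    exact one_ne_zero this
  obtain ⟨M1, l, M2, hM, he⟩ := exists_edge f _ L' h5
  have hlen : n = M1.length + 1 + M2.length := by
    rw [hM] at h4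
    simp only [List.length_cons, List.length_append] at h4
    omega
  have hM1 : vl f M1 = 1 → M1 = [] := by
    intro h6
    by_contra hne
    refine ih M1 (red_mid (A := [l0]) (B := l :: M2) (by rw [hM] at hL; simpa using hL)) hne (by omega) h6
  have hx : l0.1 = l.1 := (congrArg Prod.snd he).symm
  have hp := congrArg Prod.fst he
  simp only [ed] at hp
  rcases l0 with ⟨x0, b0⟩
  rcases l with ⟨x, b⟩
  simp only at hx
  subst hx
  subst hM
  cases b <;> cases b0
  · -- false, false
    simp only [Bool.false_eq_true, if_false] at hp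
    have e1 : (x0, false) :: (M1 ++ (x0, false) :: M2) =
      ((x0, false) :: M1) ++ (x0, false) :: M2 := rfl
    rw [e1, vl_append] at hp
    have h6 : vl f ((x0, false) :: M1) = 1 := by
      exact right_eq_mul.1 hp
    exact ih _ (red_mid (A := []) (B := (x0, false) :: M2) (by simpa using hL)) (by simp)
      (by simp only [List.length_cons]; omega) h6
  · -- l false, l0 true
    simp only [Bool.false_eq_true, if_false, if_true] at hp
    rw [vl_append] at hp
    have h6 : vl f M1 = 1 := right_eq_mul.1 hp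
    have h7 := hM1 h6
    subst h7
    have h8 := (List.isChain_cons_cons.1 hL).1 rfl
    simp at h8
  · -- l true, l0 false
    simp only [Bool.false_eq_true, if_false, if_true] at hp
    rw [vl_cons, vl_append, vl_cons] at hp
    simp only [cond_false, cond_true] at hp
    have h6 : vl f M1 = 1 := by
      have e1 : vl f M2 = ((f x0)⁻¹ * vl f M1 * f x0) * vl f M2 := by
        calc vl f M2 = _ := hp
          _ = _ := by group
      have e2 : (f x0)⁻¹ * vl f M1 * f x0 = 1 := right_eq_mul.1 e1
      have e3 : vl f M1 = f x0 * ((f x0)⁻¹ * vl f M1 * f x0) * (f x0)⁻¹ := by group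
      rw [e3, e2]
      group
    have h7 := hM1 h6
    subst h7
    have h8 := (List.isChain_cons_cons.1 hL).1 rfl
    simp at h8
  · -- true, true
    simp only [if_true] at hp
    have e1 : M1 ++ (x0, true) :: M2 = (M1 ++ [(x0, true)]) ++ M2 := by simp
    rw [e1, vl_append] at hp
    have h6 : vl f (M1 ++ [(x0, true)]) = 1 := right_eq_mul.1 hp
    exact ih _ (red_mid (A := [(x0, true)]) (B := M2) (by simpa using hL)) (by simp)
      (by simp only [List.length_append, List.length_cons, List.length_nil]; omega) h6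

end step

theorem fin_case (X : Type) [Finite X] (n : ℕ) : ∃ (P : Type) (_ : Group P) (_ : Finite P)
    (f : X → P), IsPGroup 2 P ∧
    ∀ L : List (X × Bool), FreeGroup.IsReduced L → L ≠ [] → L.length ≤ n → vl f L ≠ 1 := by
  classical
  induction n with
  | zero =>
    refine ⟨Unit, inferInstance, inferInstance, fun _ => 1, fun g => ⟨0, rfl⟩, ?_⟩
    intro L _ h0 h1
    exact absurd (List.length_eq_zero_iff.1 (Nat.le_zero.1 h1)) h0
  | succ n ih =>
    obtain ⟨P, hG, hF, f, hP, hf⟩ := ih
    refine ⟨KK f, inferInstance, inferInstance,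
      fun x => ⟨rho f (FreeGroup.of x), ⟨_, rfl⟩⟩, pg hP f, ?_⟩
    intro L hL h0 hn h
    apply step_ne f n hf L hL h0 hn
    rw [← lift_mk'] at h
    have e : ((rho f).range.subtype.comp (FreeGroup.lift
        (fun x => (⟨rho f (FreeGroup.of x), ⟨_, rfl⟩⟩ : (rho f).range)))) = rho f := by
      ext1 x
      simp
    rw [← e, MonoidHom.comp_apply, h, map_one]

theorem exists_lift {X : Type} (S : Set X) : ∀ L : List (X × Bool), (∀ l ∈ L, l.1 ∈ S) →
    ∃ L' : List (S × Bool), L'.map (fun l => (l.1.1, l.2)) = L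
  | [], _ => ⟨[], rfl⟩
  | l :: L, h => by
    obtain ⟨L', hL'⟩ := exists_lift S L (fun l hl => h l (List.mem_cons_of_mem _ hl))
    refine ⟨(⟨l.1, h l (List.mem_cons_self)⟩, l.2) :: L', ?_⟩
    rw [List.map_cons, hL']

end RFGp

open RFGp in
theorem rfg : RFGStmt := by
  classical
  intro X g hg
  set L := FreeGroup.toWord g with hL
  have hred : FreeGroup.IsReduced L := FreeGroup.isReduced_toWord
  have h0 : L ≠ [] := by
    intro h
    exact hg (FreeGroup.toWord_eq_nil_iff.1 h)
  set S : Set X := {x | x ∈ L.map Prod.fst} with hS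
  have hSf : S.Finite := List.finite_toSet _
  have : Finite S := hSf
  obtain ⟨L', hL'⟩ := exists_lift S L (fun l hl => List.mem_map_of_mem hl)
  obtain ⟨P, hG, hF, f, hP, hf⟩ := fin_case S L.length
  have hred' : FreeGroup.IsReduced L' := by
    have h1 := hred
    rw [← hL'] at h1
    unfold FreeGroup.IsReduced at h1 ⊢
    rw [List.isChain_map] at h1
    refine h1.imp (fun a b hab h2 => hab (congrArg Subtype.val h2))
  have h1 := hf L' hred' (by rintro rfl; exact h0 hL'.symm)
    (by rw [← hL', List.length_map])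
  refine ⟨P, hG, hF, fun x => if h : x ∈ S then f ⟨x, h⟩ else 1, ?_, ?_, hP⟩
  · have e : ∀ F : X → P, (∀ s : S, F s.1 = f s) → vl F L = vl f L' := by
      intro F hFs
      rw [← hL']
      unfold vl
      rw [List.map_map]
      congr 1
      apply List.map_congr_left
      intro l _
      simp [hFs]
    rw [← FreeGroup.mk_toWord (x := g), lift_mk', ← hL, e _ (fun s => by simp)]
    exact h1
  · apply hSf.subset
    intro x hx
    by_contra hn
    exact hx (dif_neg hn)

end AO
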