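import Pool.Agent.H36.AO.PFin

set_option autoImplicit false

namespace AO.BP

section
variable {ι : Type} (p : Cn ι)

/-- `i` and `j` are in conflict for `d` -/
private def Cf (d i j : ι) : Prop := (∃ m, p.B d i m) ∧ (∃ m, p.B d j m) ∧ p.a i = p.a j ∧ i ≠ j

private theorem Cf.symm {p : Cn ι} {d i j : ι} (h : Cf p d i j) : Cf p d j i :=
  ⟨h.2.1, h.1, h.2.2.1.symm, h.2.2.2.symm⟩

open Classical in
private noncomputable def yy (d0 : ι) (j : ι) : ℕ :=
  if ∃ i, Cf p d0 j i then Nat.pair (lc (p.t d0)) 0 else 0

open Classical in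
private noncomputable def xx (I : Set ι) (d0 : ι) (i : ι) : ℕ :=
  if i ∈ I then
    if ∃ j, Cf p d0 i j then Nat.pair (lc (p.t d0)) 1
    else if h : ∃ j e, Cf p e i j then yy p d0 h.choose else 0
  else yy p d0 i

end

theorem ao_sep (hlep : LEPStmt) (hups : UPSStmt) : SEPStmt := by
  classical
  intro ι T p n I
  have key : ∀ N : ℕ, ∀ (p : Cn ι) (n : ℕ), PC T p n → {d | ∃ i j, Cf p d i j}.ncard ≤ N →
      (∀ d i j, Cf p d i j → (i ∈ I ∧ j ∉ I) ∨ (i ∉ I ∧ j ∈ I)) →
      (∀ i, i ∈ I → ∀ d e j j', Cf p d i j → Cf p e i j' → d = e) →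
      ∃ q, VC T q ∧ Le q p := by
    intro N
    induction N with
    | zero =>
      intro p n hp hN h1 h2
      refine ⟨p, ⟨⟨n, hp⟩, ?_⟩, hlep.refl ι p⟩
      intro d i j m m' hB hB' he
      by_contra hij
      have hfin : {d | ∃ i j, Cf p d i j}.Finite := by
        refine hp.ft.subset ?_
        rintro d ⟨i, j, ⟨m, hm⟩, -⟩
        exact (hp.b d i m hm).2.1
      have := (Set.ncard_eq_zero hfin).1 (Nat.le_zero.1 hN)
      have h3 : d ∈ {d | ∃ i j, Cf p d i j} := ⟨i, j, ⟨m, hB⟩, ⟨m', hB'⟩, he, hij⟩
      rw [this] at h3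
      exact h3
    | succ N ih =>
      intro p n hp hN h1 h2
      by_cases hex : ∃ d i j, Cf p d i j
      · obtain ⟨d0, i0, j0, hc0⟩ := hex
        have hfin : {d | ∃ i j, Cf p d i j}.Finite := by
          refine hp.ft.subset ?_
          rintro d ⟨i, j, ⟨m, hm⟩, -⟩
          exact (hp.b d i m hm).2.1
        -- letters
        have x1 : ∀ i ∈ I, ∀ j, Cf p d0 i j → xx p I d0 i = Nat.pair (lc (p.t d0)) 1 := by
          intro i hi j hj
          unfold xx
          rw [if_pos hi, if_pos ⟨j, hj⟩]
        have x2 : ∀ i, i ∉ I → ∀ j, Cf p d0 i j → xx p I d0 i = Nat.pair (lc (p.t d0)) 0 := by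
          intro i hi j hj
          unfold xx yy
          rw [if_neg hi, if_pos ⟨j, hj⟩]
        have x3 : ∀ i ∈ I, ∀ e j, e ≠ d0 → Cf p e i j → xx p I d0 i = xx p I d0 j := by
          intro i hi e j he hj
          have hn : ¬ ∃ j, Cf p d0 i j := by
            rintro ⟨j', hj'⟩
            exact he (h2 i hi e d0 j j' hj hj')
          have hp : ∃ j e, Cf p e i j := ⟨j, e, hj⟩
          have hjI : j ∉ I := by
            rcases h1 e i j hj with h | h
            · exact h.2
            · exact absurd hi h.1
          have hch : hp.choose = j := by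
            obtain ⟨e', he'⟩ := hp.choose_spec
            have hee : e = e' := h2 i hi e e' j _ hj he'
            subst hee
            by_contra hne
            have hc : Cf p e hp.choose j :=
              ⟨he'.2.1, hj.2.1, he'.2.2.1.symm.trans hj.2.2.1, hne⟩
            rcases h1 e _ _ hc with h | h
            · rcases h1 e i _ he' with h' | h'
              · exact h'.2 h.1
              · exact h'.1 hi
            · exact hjI h.2
          unfold xx
          rw [if_pos hi, if_neg hn, dif_pos hp, hch, if_neg hjI]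
        obtain ⟨q, k1, k2, k3, k4, k5, k6, k7⟩ := hups ι T p n (xx p I d0) (fun _ _ => False)
          (fun _ => False) hp (fun d i h => h.elim) (by
            rintro d i j (hi | h0) (hj | h0') he
            · by_cases hij : i = j
              · left; rw [hij]
              · have hc : Cf p d i j := ⟨hi, hj, he, hij⟩
                by_cases hd : d = d0
                · subst hd
                  right
                  rcases h1 d i j hc with h | h
                  · rw [x1 i h.1 j hc, x2 j h.2 i hc.symm]
                    simp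
                  · rw [x2 i h.1 j hc, x1 j h.2 i hc.symm]
                    simp
                · left
                  rcases h1 d i j hc with h | h
                  · exact x3 i h.1 d j hd hc
                  · exact (x3 j h.2 d i hd hc.symm).symm
            · exact h0'.elim
            · exact h0.elim
            · exact h0.elim)
        have hB : ∀ d i m, q.B d i m ↔ p.B d i m := by
          intro d i m
          rw [k7]
          simp
        have hcq : ∀ d i j, Cf q d i j → Cf p d i j ∧ d ≠ d0 := by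
          rintro d i j ⟨⟨m, hm⟩, ⟨m', hm'⟩, he, hij⟩
          rw [hB] at hm hm'
          have hi := (hp.b d i m hm).2.2.1
          have hj := (hp.b d j m' hm').2.2.1
          rw [k3 i hi, k3 j hj] at he
          have he1 := List.append_inj' he rfl
          have hc : Cf p d i j := ⟨⟨m, hm⟩, ⟨m', hm'⟩, he1.1, hij⟩
          refine ⟨hc, ?_⟩
          rintro rfl
          have he2 : xx p I d i = xx p I d j := (List.cons.inj he1.2).1
          rcases h1 d i j hc with h | h
          · rw [x1 i h.1 j hc, x2 j h.2 i hc.symm] at he2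
            have := (Nat.pair_eq_pair.1 he2).2
            omega
          · rw [x2 i h.1 j hc, x1 j h.2 i hc.symm] at he2
            have := (Nat.pair_eq_pair.1 he2).2
            omega
        have hsub : {d | ∃ i j, Cf q d i j} ⊆ {d | ∃ i j, Cf p d i j} \ {d0} := by
          rintro d ⟨i, j, hc⟩
          exact ⟨⟨i, j, (hcq d i j hc).1⟩, (hcq d i j hc).2⟩
        have hcard : {d | ∃ i j, Cf q d i j}.ncard ≤ N := by
          have h3 := Set.ncard_le_ncard hsub (hfin.subset Set.sdiff_subset)
          have h4 := Set.ncard_sdiff_singleton_lt_of_mem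
            (show d0 ∈ {d | ∃ i j, Cf p d i j} from ⟨i0, j0, hc0⟩) hfin
          omega
        obtain ⟨r, r1, r2⟩ := ih q (n + 1) k1 hcard
          (fun d i j hc => h1 d i j (hcq d i j hc).1)
          (fun i hi d e j j' hc hc' => h2 i hi d e j j' (hcq d i j hc).1 (hcq e i j' hc').1)
        exact ⟨r, r1, hlep.trans ι _ _ _ r2 k2⟩
      · refine ⟨p, ⟨⟨n, hp⟩, ?_⟩, hlep.refl ι p⟩
        intro d i j m m' hB hB' he
        by_contra hij
        exact hex ⟨d, i, j, ⟨m, hB⟩, ⟨m', hB'⟩, he, hij⟩
  intro hp h1 h2
  refine key _ p n hp le_rfl ?_ ?_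
  · rintro d i j ⟨⟨m, hm⟩, ⟨m', hm'⟩, he, hij⟩
    exact h1 d i j m m' hm hm' he hij
  · rintro i hi d e j j' ⟨⟨m1, hm1⟩, ⟨m2, hm2⟩, he, hij⟩ ⟨⟨m3, hm3⟩, ⟨m4, hm4⟩, he', hij'⟩
    exact h2 i hi d e j j' m1 m2 m3 m4 hm1 hm2 he hij hm3 hm4 he' hij'

end AO.BP
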