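import Pool.Agent.H36.AO.PFin

set_option autoImplicit false

namespace AO.BP

section
variable {ι : Type} (p : Cn ι) (n : ℕ) (x : ι → ℕ) (C : ι → ι → Prop) (J : ι → Prop)

/-- promised indices -/
private def Pm (d j : ι) : Prop := (∃ m, p.B d j m) ∨ C d j

open Classical in
/-- the new finite set -/
private noncomputable def LL (F : Finset ι) (d : ι) : Finset (List ℕ) :=
  ((F.filter (fun j => Pm p C d j)).image (fun j => p.a j ++ [x j])) ∪
    (((lv (p.t d) n).filter (fun s => ∀ j, Pm p C d j → p.a j ≠ s)).image (fun s => s ++ [0])) ∪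
    (if J d then {[]} else ∅)

open Classical in
private theorem mem_LL (F : Finset ι) (d : ι) (s : List ℕ) (y : ℕ) :
    s ++ [y] ∈ LL p n x C J F d ↔ (∃ j ∈ F, Pm p C d j ∧ p.a j = s ∧ x j = y) ∨
      (s ∈ lv (p.t d) n ∧ (∀ j, Pm p C d j → p.a j ≠ s) ∧ y = 0) := by
  unfold LL
  rw [Finset.mem_union, Finset.mem_union, Finset.mem_image, Finset.mem_image]
  constructor
  · rintro ((⟨j, hj, h⟩ | ⟨s', hs', h⟩) | h)
    · rw [Finset.mem_filter] at hj
      have h1 := List.append_inj' h rfl
      exact Or.inl ⟨j, hj.1, hj.2, h1.1, (List.cons.inj h1.2).1⟩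
    · rw [Finset.mem_filter] at hs'
      have h1 := List.append_inj' h rfl
      rw [← h1.1]
      exact Or.inr ⟨hs'.1, hs'.2, ((List.cons.inj h1.2).1).symm⟩
    · exfalso
      split_ifs at h
      · rw [Finset.mem_singleton] at h
        exact List.append_ne_nil_of_right_ne_nil _ (by simp) h
      · simp at h
  · rintro (⟨j, hj, h1, h2, h3⟩ | ⟨h1, h2, h3⟩)
    · left; left
      exact ⟨j, Finset.mem_filter.2 ⟨hj, h1⟩, by rw [h2, h3]⟩
    · left; right
      exact ⟨s, Finset.mem_filter.2 ⟨h1, h2⟩, by rw [h3]⟩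

open Classical in
private theorem nil_mem_LL (F : Finset ι) (d : ι) : [] ∈ LL p n x C J F d ↔ J d := by
  unfold LL
  rw [Finset.mem_union, Finset.mem_union, Finset.mem_image, Finset.mem_image]
  constructor
  · rintro ((⟨j, hj, h⟩ | ⟨s', hs', h⟩) | h)
    · simp at h
    · simp at h
    · split_ifs at h with hJ
      · exact hJ
      · simp at h
  · intro hJ
    right
    rw [if_pos hJ]
    simp

end

private theorem fs_enc (S : Finset (List ℕ)) : fs (Encodable.encode S) = S := by
  unfold fs
  rw [Encodable.encodek]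
  rfl

theorem ao_ups : UPSStmt := by
  classical
  intro ι T p n x C J h hC hx
  set F : Finset ι := h.fa.toFinset with hF
  have hmF : ∀ j, j ∈ F ↔ p.a j ≠ [] := fun j => by rw [hF, Set.Finite.mem_toFinset]; rfl
  have hPm : ∀ d j, Pm p C d j → T d j ∧ p.t d ≠ [] ∧ p.a j ≠ [] := by
    rintro d j (⟨m, hm⟩ | hc)
    · have := h.b d j m hm
      exact ⟨this.1, this.2.1, this.2.2.1⟩
    · exact hC d j hc
  let q : Cn ι :=
    { a := fun i => if p.a i = [] then [] else p.a i ++ [x i]
      t := fun d => if p.t d = [] then [] else p.t d ++ [Encodable.encode (LL p n x C J F d)]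
      B := fun d i m => p.B d i m ∨ (C d i ∧ m = n + 1) }
  have qa1 : ∀ i, p.a i ≠ [] → q.a i = p.a i ++ [x i] := fun i hi => if_neg hi
  have qa0 : ∀ i, p.a i = [] → q.a i = [] := fun i hi => if_pos hi
  have qt1 : ∀ d, p.t d ≠ [] → q.t d = p.t d ++ [Encodable.encode (LL p n x C J F d)] :=
    fun i hi => if_neg hi
  have qt0 : ∀ d, p.t d = [] → q.t d = [] := fun i hi => if_pos hi
  have qa2 : ∀ i, q.a i ≠ [] → p.a i ≠ [] := fun i hi h0 => hi (qa0 i h0)
  have qt2 : ∀ i, q.t i ≠ [] → p.t i ≠ [] := fun i hi h0 => hi (qt0 i h0)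
  have hl1 : ∀ d, p.t d ≠ [] → ∀ k, k < n + 1 → lv (q.t d) k = lv (p.t d) k := by
    intro d hd k hk
    unfold lv
    rw [qt1 d hd, List.getD_eq_getElem?_getD, List.getD_eq_getElem?_getD,
      List.getElem?_append_left (by rw [h.lt d hd]; exact hk)]
  have hl2 : ∀ d, p.t d ≠ [] → lv (q.t d) (n + 1) = LL p n x C J F d := by
    intro d hd
    unfold lv
    rw [qt1 d hd, List.getD_eq_getElem?_getD,
      List.getElem?_append_right (by rw [h.lt d hd])]
    rw [h.lt d hd, Nat.sub_self]
    simp only [List.getElem?_cons_zero, Option.getD_some]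
    exact fs_enc _
  have htk : ∀ d, p.t d ≠ [] → ∀ k, k ≤ n + 1 → (q.t d).take k = (p.t d).take k := by
    intro d hd k hk
    rw [qt1 d hd, List.take_append_of_le_length (by rw [h.lt d hd]; exact hk)]
  have hta : ∀ i, p.a i ≠ [] → ∀ k, k ≤ n → (q.a i).take k = (p.a i).take k := by
    intro i hi k hk
    rw [qa1 i hi, List.take_append_of_le_length (by rw [h.la i hi]; exact hk)]
  have hla : ∀ i, p.a i ≠ [] → (q.a i).length = n + 1 := by
    intro i hi
    rw [qa1 i hi, List.length_append, h.la i hi]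
    rfl
  have hlt : ∀ i, p.t i ≠ [] → (q.t i).length = n + 1 + 1 := by
    intro i hi
    rw [qt1 i hi, List.length_append, h.lt i hi]
    rfl
  have hnew : ∀ d i, Pm p C d i → q.a i ∈ lv (q.t d) (n + 1) := by
    intro d i hp
    obtain ⟨-, h2, h3⟩ := hPm d i hp
    rw [hl2 d h2, qa1 i h3, mem_LL]
    exact Or.inl ⟨i, (hmF i).2 h3, hp, rfl, rfl⟩
  refine ⟨q, ⟨?_, ?_, fun i hi => hla i (qa2 i hi), fun d hd => hlt d (qt2 d hd), ?_, ?_⟩,
    ⟨?_, ?_, fun d i m hB => Or.inl hB⟩, qa1, qa0, ?_, ?_, fun d i m => Iff.rfl⟩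
  · exact h.fa.subset fun i hi => qa2 i hi
  · exact h.ft.subset fun i hi => qt2 i hi
  · intro d
    by_cases hd : p.t d = []
    · rw [qt0 d hd]
      exact ⟨fun k s x x' hk => absurd hk (Nat.not_lt_zero _),
        fun k s hk => absurd hk (Nat.not_lt_zero _)⟩
    · constructor
      · intro k s y y' hk hs hne h1 h2
        rw [hlt d hd] at hk
        rcases Nat.lt_or_ge k n with hkn | hkn
        · rw [hl1 d hd k (by omega)] at hs
          rw [hl1 d hd (k + 1) (by omega)] at h1 h2
          rw [htk d hd (k + 1) (by omega)]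
          exact (h.adm d).sp k s y y' (by rw [h.lt d hd]; omega) hs hne h1 h2
        · obtain rfl : k = n := by omega
          rw [hl2 d hd, mem_LL] at h1 h2
          rw [htk d hd (k + 1) le_rfl]
          have e : (p.t d).take (k + 1) = p.t d := by
            rw [← h.lt d hd, List.take_length]
          rw [e]
          rcases h1 with ⟨j, hj, hj1, hj2, hj3⟩ | ⟨-, hj1, hj2⟩
          · rcases h2 with ⟨j', hj', hj1', hj2', hj3'⟩ | ⟨-, hj1', hj2'⟩
            · rcases hx d j j' hj1 hj1' (hj2.trans hj2'.symm) with h5 | h5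
              · exact absurd (hj3.symm.trans (h5.trans hj3')) hne
              · rw [← hj3, ← hj3']
                exact h5
            · exact absurd hj2 (hj1' j hj1)
          · rcases h2 with ⟨j', hj', hj1', hj2', hj3'⟩ | ⟨-, hj1', hj2'⟩
            · exact absurd hj2' (hj1 j' hj1')
            · exact absurd (hj2.trans hj2'.symm) hne
      · intro k s hk hs
        rw [hlt d hd] at hk
        rcases Nat.lt_or_ge k n with hkn | hkn
        · rw [hl1 d hd k (by omega)] at hs
          rw [hl1 d hd (k + 1) (by omega)]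
          exact (h.adm d).pr k s (by rw [h.lt d hd]; omega) hs
        · obtain rfl : k = n := by omega
          rw [hl1 d hd k (by omega)] at hs
          rw [hl2 d hd]
          by_cases he : ∃ j, Pm p C d j ∧ p.a j = s
          · obtain ⟨j, hj1, hj2⟩ := he
            exact ⟨x j, (mem_LL p k x C J F d s _).2
              (Or.inl ⟨j, (hmF j).2 (hPm d j hj1).2.2, hj1, hj2, rfl⟩)⟩
          · exact ⟨0, (mem_LL p k x C J F d s _).2
              (Or.inr ⟨hs, fun j hj h0 => he ⟨j, hj, h0⟩, rfl⟩)⟩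
  · rintro d i m (hB | ⟨hB, rfl⟩)
    · obtain ⟨h1, h2, h3, h4, h5⟩ := h.b d i m hB
      refine ⟨h1, ?_, ?_, by omega, ?_⟩
      · rw [qt1 d h2]; simp
      · rw [qa1 i h3]; simp
      · intro k hk1 hk2
        rw [hla i h3] at hk2
        rcases Nat.lt_or_ge k (n + 1) with hkn | hkn
        · rw [hta i h3 k (by omega), hl1 d h2 k hkn]
          exact h5 k hk1 (by rw [h.la i h3]; omega)
        · obtain rfl : k = n + 1 := by omega
          have := hnew d i (Or.inl ⟨m, hB⟩)
          rwa [← hla i h3, List.take_length, hla i h3]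
    · obtain ⟨h1, h2, h3⟩ := hC d i hB
      refine ⟨h1, ?_, ?_, by omega, ?_⟩
      · rw [qt1 d h2]; simp
      · rw [qa1 i h3]; simp
      · intro k hk1 hk2
        rw [hla i h3] at hk2
        obtain rfl : k = n + 1 := by omega
        have := hnew d i (Or.inr hB)
        rwa [← hla i h3, List.take_length, hla i h3]
  · intro i
    by_cases hi : p.a i = []
    · rw [hi]; exact List.nil_prefix
    · rw [qa1 i hi]; exact List.prefix_append _ _
  · intro i
    by_cases hi : p.t i = []
    · rw [hi]; exact List.nil_prefix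
    · rw [qt1 i hi]; exact List.prefix_append _ _
  · intro d
    refine ⟨fun h0 => ?_, qt0 d⟩
    by_contra hd
    rw [qt1 d hd] at h0
    simp at h0
  · intro d hd
    rw [hl2 d hd]
    exact nil_mem_LL p n x C J F d

end AO.BP
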